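import Pool.Agent.H66.GL.Fin
import Pool.Agent.H66.TM.Ca
import Pool.Agent.H66.TM.Pm
import Pool.Agent.H66.TM.Alg

/-!
# Skew products with affine torus fibre maps
-/

set_option autoImplicit false
set_option linter.unusedSectionVars false

open scoped Topology ContDiff Manifold
open Set Filter Function

universe u v

namespace Pool.Agent.H66.GL

open Pool.Agent.H718R2.G Pool.Agent.W5h32.TX Pool.Agent.W5h32.PT Pool.Agent.X84.Pm
open Pool.Agent.R773.TE (ProdDiff proj)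
open Pool.Agent.Y504.CO (exists_metric)
open Pool.Agent.H66.TM

/-- coordinates of the parameters -/
noncomputable def ee (k : ℕ) : (Fin k → ℝ) →L[ℝ] EuclideanSpace ℝ (Fin k) :=
  ((EuclideanSpace.equiv (Fin k) ℝ).symm : (Fin k → ℝ) →L[ℝ] EuclideanSpace ℝ (Fin k))

theorem ee_apply (k : ℕ) (t : Fin k → ℝ) (i : Fin k) : ee k t i = t i := rfl

theorem tr_torus (k : ℕ) : IsTorusAction k k (Tor k) (tr (ee k)) where
  smooth := tr_smooth _
  zero := tr_zero _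
  add := tr_add _
  int z x := by
    show mk (ee k fun i => (z i : ℝ)) + x = x
    have h1 : mk (ee k fun i => (z i : ℝ)) = 0 := by
      rw [← mk_zero, mk_eq_iff]
      intro j
      exact ⟨z j, by rw [ee_apply]; simp⟩
    rw [h1, zero_add]

theorem tr_trans (k : ℕ) (y y' : Tor k) : ∃ t, tr (ee k) t y = y' := by
  obtain ⟨v, hv⟩ := mk_surj k (y' - y)
  refine ⟨fun i => v i, ?_⟩
  have h1 : ee k (fun i => v i) = v := by
    ext i
    rfl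
  show mk (ee k fun i => v i) + y = y'
  rw [h1, hv, sub_add_cancel]

section

variable {n d k : ℕ} {N : Type u} [TopologicalSpace N] [T2Space N] [CompactSpace N]
  [ChartedSpace (V n) N] [IsManifold (𝓡 n) ∞ N]
  {B : Type v} [TopologicalSpace B] [T2Space B] [CompactSpace B] [ChartedSpace (V d) B]
  [IsManifold (𝓡 d) ∞ B] {r : ℕ∞}

theorem toral_ext (Θ : ProdDiff n d k N B (Tor k)) (F : DiffM n N r) (f : DiffM d B r)
    (A : Matrix (Fin k) (Fin k) ℤ) (c : B → Tor k) (hA : IsUnit A.det)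
    (hroot : ∀ m : ℕ, 1 ≤ m → (∑ j ∈ Finset.range m, A ^ j).det ≠ 0)
    (h : ∀ b y, F (Θ (b, y)) = Θ (f b, lin A y + c b)) :
    IsToralExt Θ (tr (ee k)) A F where
  torus := tr_torus k
  trans := tr_trans k
  norm :=
    { det := hA.ne_zero
      root := hroot
      comm := fun t x => by
        obtain ⟨⟨b, y⟩, rfl⟩ : ∃ z, Θ z = x := ⟨Θ.symm x, Θ.apply_symm_apply x⟩
        rw [fibAct_apply, h, h, fibAct_apply]
        have h1 : lin A (mk (ee k t)) = mk (ee k ((A.map (Int.cast : ℤ → ℝ)).mulVec t)) := by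
          rw [lin_mk]
          congr 1
        show Θ (f b, lin A (mk (ee k t) + y) + c b) =
          Θ (f b, mk (ee k ((A.map (Int.cast : ℤ → ℝ)).mulVec t)) + (lin A y + c b))
        rw [lin_add, h1, add_assoc] }

theorem GradLike.tame' {G : DiffM n N r} (h : GradLike G) : Tame G := by
  have hmet : TopologicalSpace.MetrizableSpace N := exists_metric n N
  exact h.tame G.continuous

/-- the case without roots of unity -/
theorem affine_base (Θ : ProdDiff n d k N B (Tor k)) (hr : 1 ≤ r) (F : DiffM n N r)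
    (f : DiffM d B r) (A : Matrix (Fin k) (Fin k) ℤ) (c : B → Tor k) (hA : IsUnit A.det)
    (hroot : ∀ m : ℕ, 1 ≤ m → (∑ j ∈ Finset.range m, A ^ j).det ≠ 0)
    (h : ∀ b y, F (Θ (b, y)) = Θ (f b, lin A y + c b)) (hf : Near f fun g => GradLike g) :
    Near F fun G => TameAttr G := by
  obtain ⟨hcov, -⟩ := ext_coord Θ F f _ h
  have h1 := main_inherit hr (toral_ext Θ F f A c hA hroot h) hcov
  have h2 : Near f fun g => Tame g := by
    intro U hU hfU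
    obtain ⟨g, hgU, hg⟩ := hf U hU hfU
    exact ⟨g, hgU, hg.tame'⟩
  intro U hU hFU
  obtain ⟨G, hGU, -, hG⟩ := h1 h2 U hU hFU
  exact ⟨G, hGU, hG⟩

variable {m k₁ k₂ : ℕ} {P₁ : Matrix (Fin k₁) (Fin k) ℤ} {P₂ : Matrix (Fin k₂) (Fin k) ℤ}
  {S₁ : Matrix (Fin k) (Fin k₁) ℤ} {S₂ : Matrix (Fin k) (Fin k₂) ℤ}
  {A : Matrix (Fin k) (Fin k) ℤ} {A₁ : Matrix (Fin k₁) (Fin k₁) ℤ}
  {A₂ : Matrix (Fin k₂) (Fin k₂) ℤ} {L : Matrix (Fin k₂) (Fin k₁) ℤ}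

/-- the projection to the new base -/
noncomputable def pr1 (Θ : ProdDiff n d k N B (Tor k)) (P₁ : Matrix (Fin k₁) (Fin k) ℤ) (x : N) :
    PM d k₁ B (Tor k₁) := ((Θ.symm x).1, lin P₁ (Θ.symm x).2)

/-- a section -/
noncomputable def se1 (Θ : ProdDiff n d k N B (Tor k)) (S₁ : Matrix (Fin k) (Fin k₁) ℤ)
    (z : PM d k₁ B (Tor k₁)) : N := Θ (z.1, lin S₁ z.2)

theorem pr1_smooth (Θ : ProdDiff n d k N B (Tor k)) (P₁ : Matrix (Fin k₁) (Fin k) ℤ) :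
    ContMDiff (𝓡 n) (𝓡 (d + k₁)) ∞ (pr1 Θ P₁) := by
  have h1 : ContMDiff (𝓡 n) ((𝓡 d).prod (𝓡 k₁)) ∞
      (fun x => (((Θ.symm x).1, lin P₁ (Θ.symm x).2) : B × Tor k₁)) := by
    have h2 : ContMDiff (𝓡 n) ((𝓡 d).prod (𝓡 k)) ∞ (fun x => Θ.symm x) := Θ.symm.contMDiff
    have h3 : ContMDiff (𝓡 n) (𝓡 d) ∞ (fun x => (Θ.symm x).1) := contMDiff_fst.comp h2
    have h4 : ContMDiff (𝓡 n) (𝓡 k) ∞ (fun x => (Θ.symm x).2) := contMDiff_snd.comp h2
    exact h3.prodMk (ContMDiff.tlin (r := ⊤) h4 P₁)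
  exact toPM_smooth.comp h1

theorem se1_smooth (Θ : ProdDiff n d k N B (Tor k)) (S₁ : Matrix (Fin k) (Fin k₁) ℤ) :
    ContMDiff (𝓡 (d + k₁)) (𝓡 n) ∞ (se1 Θ S₁) := by
  have h2 : ContMDiff (𝓡 (d + k₁)) ((𝓡 d).prod (𝓡 k₁)) ∞
      (fun z : PM d k₁ B (Tor k₁) => (show B × Tor k₁ from z)) := ofPM_smooth
  have h3 : ContMDiff (𝓡 (d + k₁)) (𝓡 d) ∞ (fun z : PM d k₁ B (Tor k₁) => z.1) :=
    contMDiff_fst.comp h2
  have h4 : ContMDiff (𝓡 (d + k₁)) (𝓡 k₁) ∞ (fun z : PM d k₁ B (Tor k₁) => z.2) :=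
    contMDiff_snd.comp h2
  exact Θ.contMDiff.comp (h3.prodMk (ContMDiff.tlin (r := ⊤) h4 S₁))

/-- the map of the new base -/
noncomputable def ph1 (f : DiffM d B r) (A₁ : Matrix (Fin k₁) (Fin k₁) ℤ)
    (P₁ : Matrix (Fin k₁) (Fin k) ℤ) (c : B → Tor k) (z : PM d k₁ B (Tor k₁)) :
    PM d k₁ B (Tor k₁) := (f z.1, lin A₁ z.2 + lin P₁ (c z.1))

theorem pr1_F (Θ : ProdDiff n d k N B (Tor k)) {F : DiffM n N r} {f : DiffM d B r} {c : B → Tor k}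
    (H : Adapted A m k₁ k₂ P₁ P₂ S₁ S₂ A₁ A₂ L)
    (h : ∀ b y, F (Θ (b, y)) = Θ (f b, lin A y + c b)) (x : N) :
    pr1 Θ P₁ (F x) = ph1 f A₁ P₁ c (pr1 Θ P₁ x) := by
  obtain ⟨⟨b, y⟩, rfl⟩ : ∃ z, Θ z = x := ⟨Θ.symm x, Θ.apply_symm_apply x⟩
  unfold pr1 ph1
  rw [h, Θ.symm_apply_apply, Θ.symm_apply_apply]
  show (f b, lin P₁ (lin A y + c b)) = (f b, lin A₁ (lin P₁ y) + lin P₁ (c b))
  rw [lin_add, ← lin_mul, ← lin_mul, H.p1a]

theorem pr1_se1 (Θ : ProdDiff n d k N B (Tor k)) (h : P₁ * S₁ = 1) (z : PM d k₁ B (Tor k₁)) :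
    pr1 Θ P₁ (se1 Θ S₁ z) = z := by
  unfold pr1 se1
  rw [Θ.symm_apply_apply]
  show (z.1, lin P₁ (lin S₁ z.2)) = z
  rw [← lin_mul, h, lin_one]
  rfl

theorem ph1_inj {f : DiffM d B r} {c : B → Tor k} (hm : 1 ≤ m) (hfin : A₁ ^ m = 1) :
    Injective (ph1 f A₁ P₁ c) := by
  rintro ⟨b, q⟩ ⟨b', q'⟩ h
  have h1 : f b = f b' := congrArg Prod.fst h
  have h2 : b = b' := f.injective h1
  subst h2
  have h3 : lin A₁ q + lin P₁ (c b) = lin A₁ q' + lin P₁ (c b) := congrArg Prod.snd h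
  have h4 : lin A₁ q = lin A₁ q' := add_right_cancel h3
  have h5 : lin (A₁ ^ m) q = lin (A₁ ^ m) q' := by
    obtain ⟨m, rfl⟩ : ∃ m', m = m' + 1 := ⟨m - 1, by omega⟩
    rw [pow_succ, lin_mul, h4, ← lin_mul]
  rw [hfin, lin_one, lin_one] at h5
  rw [h5]

/-- the map of the new base as a diffeomorphism -/
noncomputable def F1 (Θ : ProdDiff n d k N B (Tor k)) {F : DiffM n N r} {f : DiffM d B r}
    {c : B → Tor k} (hm : 1 ≤ m) (H : Adapted A m k₁ k₂ P₁ P₂ S₁ S₂ A₁ A₂ L)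
    (h : ∀ b y, F (Θ (b, y)) = Θ (f b, lin A y + c b)) : DiffM (d + k₁) (PM d k₁ B (Tor k₁)) r where
  toFun z := pr1 Θ P₁ (F (se1 Θ S₁ z))
  invFun z := pr1 Θ P₁ (F.symm (se1 Θ S₁ z))
  left_inv z := by
    apply ph1_inj (f := f) (c := c) (P₁ := P₁) hm H.fin
    rw [← pr1_F Θ H h, F.apply_symm_apply, pr1_se1 Θ H.p1s1]
    show pr1 Θ P₁ (F (se1 Θ S₁ z)) = _
    rw [pr1_F Θ H h, pr1_se1 Θ H.p1s1]
  right_inv z := by
    show pr1 Θ P₁ (F (se1 Θ S₁ (pr1 Θ P₁ (F.symm (se1 Θ S₁ z))))) = z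
    rw [pr1_F Θ H h, pr1_se1 Θ H.p1s1, ← pr1_F Θ H h, F.apply_symm_apply, pr1_se1 Θ H.p1s1]
  contMDiff_toFun := ((pr1_smooth Θ P₁).of_le (by exact_mod_cast le_top)).comp
    (F.contMDiff.comp ((se1_smooth Θ S₁).of_le (by exact_mod_cast le_top)))
  contMDiff_invFun := ((pr1_smooth Θ P₁).of_le (by exact_mod_cast le_top)).comp
    (F.symm.contMDiff.comp ((se1_smooth Θ S₁).of_le (by exact_mod_cast le_top)))

theorem F1_apply (Θ : ProdDiff n d k N B (Tor k)) {F : DiffM n N r} {f : DiffM d B r}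
    {c : B → Tor k} (hm : 1 ≤ m) (H : Adapted A m k₁ k₂ P₁ P₂ S₁ S₂ A₁ A₂ L)
    (h : ∀ b y, F (Θ (b, y)) = Θ (f b, lin A y + c b)) (z : PM d k₁ B (Tor k₁)) :
    F1 Θ hm H h z = ph1 f A₁ P₁ c z := by
  have h1 : F1 Θ hm H h z = pr1 Θ P₁ (F (se1 Θ S₁ z)) := rfl
  rw [h1, pr1_F Θ H h, pr1_se1 Θ H.p1s1]

/-- the new coordinates -/
noncomputable def Th2 (Θ : ProdDiff n d k N B (Tor k))
    (H : Adapted A m k₁ k₂ P₁ P₂ S₁ S₂ A₁ A₂ L) :
    ProdDiff n (d + k₁) k₂ N (PM d k₁ B (Tor k₁)) (Tor k₂) where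
  toFun z := Θ (z.1.1, lin S₁ z.1.2 + lin S₂ z.2)
  invFun x := (pr1 Θ P₁ x, lin P₂ (Θ.symm x).2)
  left_inv z := by
    show (pr1 Θ P₁ (Θ (z.1.1, lin S₁ z.1.2 + lin S₂ z.2)),
      lin P₂ (Θ.symm (Θ (z.1.1, lin S₁ z.1.2 + lin S₂ z.2))).2) = z
    unfold pr1
    rw [Θ.symm_apply_apply]
    have e1 : lin P₁ (lin S₁ z.1.2 + lin S₂ z.2) = z.1.2 := by
      rw [lin_add, ← lin_mul, ← lin_mul, H.p1s1, H.p1s2, lin_one, lin_zerom, add_zero]
    have e2 : lin P₂ (lin S₁ z.1.2 + lin S₂ z.2) = z.2 := by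
      rw [lin_add, ← lin_mul, ← lin_mul, H.p2s1, H.p2s2, lin_one, lin_zerom, zero_add]
    refine Prod.ext (Prod.ext rfl e1) e2
  right_inv x := by
    show Θ ((Θ.symm x).1, lin S₁ (lin P₁ (Θ.symm x).2) + lin S₂ (lin P₂ (Θ.symm x).2)) = x
    rw [← lin_mul, ← lin_mul, ← lin_addm, H.sp, lin_one]
    exact Θ.apply_symm_apply x
  contMDiff_toFun := by
    have h1 : ContMDiff ((𝓡 (d + k₁)).prod (𝓡 k₂)) ((𝓡 d).prod (𝓡 k₁)) ∞
        (fun z : PM d k₁ B (Tor k₁) × Tor k₂ => (show B × Tor k₁ from z.1)) :=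
      ofPM_smooth.comp contMDiff_fst
    have h2 : ContMDiff ((𝓡 (d + k₁)).prod (𝓡 k₂)) (𝓡 d) ∞
        (fun z : PM d k₁ B (Tor k₁) × Tor k₂ => z.1.1) := contMDiff_fst.comp h1
    have h3 : ContMDiff ((𝓡 (d + k₁)).prod (𝓡 k₂)) (𝓡 k₁) ∞
        (fun z : PM d k₁ B (Tor k₁) × Tor k₂ => z.1.2) := contMDiff_snd.comp h1
    have h4 : ContMDiff ((𝓡 (d + k₁)).prod (𝓡 k₂)) (𝓡 k₂) ∞
        (fun z : PM d k₁ B (Tor k₁) × Tor k₂ => z.2) := contMDiff_snd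
    exact Θ.contMDiff.comp (h2.prodMk
      (ContMDiff.tadd (r := ⊤) (ContMDiff.tlin (r := ⊤) h3 S₁) (ContMDiff.tlin (r := ⊤) h4 S₂)))
  contMDiff_invFun := by
    have h4 : ContMDiff (𝓡 n) (𝓡 k) ∞ (fun x => (Θ.symm x).2) :=
      contMDiff_snd.comp Θ.symm.contMDiff
    exact (pr1_smooth Θ P₁).prodMk (ContMDiff.tlin (r := ⊤) h4 P₂)

theorem F_Th2 (Θ : ProdDiff n d k N B (Tor k)) {F : DiffM n N r} {f : DiffM d B r}
    {c : B → Tor k} (hm : 1 ≤ m) (H : Adapted A m k₁ k₂ P₁ P₂ S₁ S₂ A₁ A₂ L)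
    (h : ∀ b y, F (Θ (b, y)) = Θ (f b, lin A y + c b)) (z : PM d k₁ B (Tor k₁)) (w : Tor k₂) :
    F (Th2 Θ H (z, w)) = Th2 Θ H (F1 Θ hm H h z, lin A₂ w + (lin L z.2 + lin P₂ (c z.1))) := by
  rw [F1_apply]
  show F (Θ (z.1, lin S₁ z.2 + lin S₂ w)) = Θ (f z.1, lin S₁ (lin A₁ z.2 + lin P₁ (c z.1)) +
    lin S₂ (lin A₂ w + (lin L z.2 + lin P₂ (c z.1))))
  rw [h]
  congr 2
  obtain ⟨y, hy⟩ : ∃ y, y = lin S₁ z.2 + lin S₂ w := ⟨_, rfl⟩
  have h1 : lin P₁ y = z.2 := by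
    rw [hy, lin_add, ← lin_mul, ← lin_mul, H.p1s1, H.p1s2, lin_one, lin_zerom, add_zero]
  have h2 : lin P₂ y = w := by
    rw [hy, lin_add, ← lin_mul, ← lin_mul, H.p2s1, H.p2s2, lin_one, lin_zerom, zero_add]
  obtain ⟨x, hx⟩ : ∃ x, x = lin A y + c z.1 := ⟨_, rfl⟩
  have h3 : lin P₁ x = lin A₁ z.2 + lin P₁ (c z.1) := by
    rw [hx, lin_add, ← lin_mul, H.p1a, lin_mul, h1]
  have h4 : lin P₂ x = lin A₂ w + (lin L z.2 + lin P₂ (c z.1)) := by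
    rw [hx, lin_add, ← lin_mul, H.p2a, lin_addm, lin_mul, lin_mul, h1, h2]
    abel
  rw [← hy, ← hx, ← h3, ← h4, ← lin_mul, ← lin_mul, ← lin_addm, H.sp, lin_one]

end

/-- the reduction step -/
theorem affine_step {n d k : ℕ} {N : Type u} [TopologicalSpace N] [T2Space N] [CompactSpace N]
    [ChartedSpace (V n) N] [IsManifold (𝓡 n) ∞ N]
    {B : Type v} [TopologicalSpace B] [T2Space B] [CompactSpace B] [ChartedSpace (V d) B]
    [IsManifold (𝓡 d) ∞ B] {r : ℕ∞} (Θ : ProdDiff n d k N B (Tor k)) (hr : 1 ≤ r)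
    {F : DiffM n N r} {f : DiffM d B r} {A : Matrix (Fin k) (Fin k) ℤ} {c : B → Tor k}
    (h : ∀ b y, F (Θ (b, y)) = Θ (f b, lin A y + c b)) (hf : Near f fun g => GradLike g)
    {m k₁ k₂ : ℕ} {P₁ : Matrix (Fin k₁) (Fin k) ℤ} {P₂ : Matrix (Fin k₂) (Fin k) ℤ}
    {S₁ : Matrix (Fin k) (Fin k₁) ℤ} {S₂ : Matrix (Fin k) (Fin k₂) ℤ}
    {A₁ : Matrix (Fin k₁) (Fin k₁) ℤ} {A₂ : Matrix (Fin k₂) (Fin k₂) ℤ}
    {L : Matrix (Fin k₂) (Fin k₁) ℤ} (hm : 1 ≤ m)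
    (H : Adapted A m k₁ k₂ P₁ P₂ S₁ S₂ A₁ A₂ L) : Near (F1 Θ hm H h) fun G => GradLike G := by
  have hcoord : ∀ b q, F1 Θ hm H h (pmD d k₁ B (Tor k₁) (b, q)) =
      pmD d k₁ B (Tor k₁) (f b, lin A₁ q + lin P₁ (c b)) := by
    intro b q
    rw [F1_apply]
    rfl
  obtain ⟨hcov, hfib⟩ := ext_coord (pmD d k₁ B (Tor k₁)) (F1 Θ hm H h) f _ hcoord
  refine near_gradLike (pmD d k₁ B (Tor k₁)) hr hcov
    (𝒢 := {R | ∃ (i : ℕ) (t : Tor k₁), R = fun q => lin (A₁ ^ i) q + t}) ?_ ?_ ?_ hf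
  · rintro _ ⟨i, t, rfl⟩ _ ⟨i', t', rfl⟩
    refine ⟨i + i', lin (A₁ ^ i) t' + t, ?_⟩
    funext q
    show lin (A₁ ^ i) (lin (A₁ ^ i') q + t') + t = _
    rw [lin_add, ← lin_mul, ← pow_add, add_assoc]
  · intro b
    rw [hfib]
    exact ⟨1, lin P₁ (c b), by rw [pow_one]⟩
  · rintro _ ⟨i, t, rfl⟩
    refine pb_compactAbelian (affine_compactAbelian hm ?_ t)
    rw [← pow_mul, mul_comm, pow_mul, H.fin, one_pow]

/-- **Affine torus fibre maps with arbitrary linear part.** -/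
theorem near_affine (k : ℕ) : ∀ (n d : ℕ) (N : Type u) [TopologicalSpace N] [T2Space N]
    [CompactSpace N] [ChartedSpace (V n) N] [IsManifold (𝓡 n) ∞ N]
    (B : Type v) [TopologicalSpace B] [T2Space B] [CompactSpace B] [ChartedSpace (V d) B]
    [IsManifold (𝓡 d) ∞ B] (Θ : ProdDiff n d k N B (Tor k)) (r : ℕ∞) (_ : 1 ≤ r)
    (F : DiffM n N r) (f : DiffM d B r) (A : Matrix (Fin k) (Fin k) ℤ) (c : B → Tor k),
    IsUnit A.det → (∀ b y, F (Θ (b, y)) = Θ (f b, lin A y + c b)) →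
    (Near f fun g => GradLike g) → Near F fun G => TameAttr G := by
  induction k using Nat.strong_induction_on with
  | _ k ih =>
    intro n d N _ _ _ _ _ B _ _ _ _ _ Θ r hr F f A c hA h hf
    by_cases hroot : ∀ m : ℕ, 1 ≤ m → (∑ j ∈ Finset.range m, A ^ j).det ≠ 0
    · exact affine_base Θ hr F f A c hA hroot h hf
    · push Not at hroot
      obtain ⟨m, hm, hdet⟩ := hroot
      obtain ⟨k₁, k₂, P₁, P₂, S₁, S₂, A₁, A₂, L, H⟩ := exists_adapted A hA (det_of_sum hdet)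
      exact ih k₂ H.lt n (d + k₁) N (PM d k₁ B (Tor k₁)) (Th2 Θ H) r hr F (F1 Θ hm H h) A₂
        (fun z => lin L z.2 + lin P₂ (c z.1)) H.unit (fun z w => F_Th2 Θ hm H h z w)
        (affine_step Θ hr h hf hm H)

/-- the zero-dimensional torus -/
theorem tor0_single (x y : Tor 0) : x = y := by
  funext i
  exact i.elim0

/-- **Quasi-unipotent linear part.** -/
theorem near_quasi (k : ℕ) : ∀ (n d : ℕ) (N : Type u) [TopologicalSpace N] [T2Space N]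
    [CompactSpace N] [ChartedSpace (V n) N] [IsManifold (𝓡 n) ∞ N]
    (B : Type v) [TopologicalSpace B] [T2Space B] [CompactSpace B] [ChartedSpace (V d) B]
    [IsManifold (𝓡 d) ∞ B] (Θ : ProdDiff n d k N B (Tor k)) (r : ℕ∞) (_ : 1 ≤ r)
    (F : DiffM n N r) (f : DiffM d B r) (A : Matrix (Fin k) (Fin k) ℤ) (c : B → Tor k),
    IsUnit A.det → QuasiUnipotent A → (∀ b y, F (Θ (b, y)) = Θ (f b, lin A y + c b)) →
    (Near f fun g => GradLike g) → Near F fun G => GradLike G := by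
  induction k using Nat.strong_induction_on with
  | _ k ih =>
    intro n d N _ _ _ _ _ B _ _ _ _ _ Θ r hr F f A c hA hq h hf
    rcases Nat.eq_zero_or_pos k with hk | hk
    · subst hk
      obtain ⟨hcov, hfib⟩ := ext_coord Θ F f _ h
      refine near_gradLike Θ hr hcov (𝒢 := {R | R = fun y => lin 1 y + 0}) ?_ ?_ ?_ hf
      · rintro _ rfl _ rfl
        funext y
        exact tor0_single _ _
      · intro b
        funext y
        exact tor0_single _ _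
      · rintro _ rfl
        exact pb_compactAbelian (affine_compactAbelian le_rfl (pow_one 1) 0)
    · obtain ⟨m, j, hm, h0⟩ := id hq
      obtain ⟨k₁, k₂, P₁, P₂, S₁, S₂, A₁, A₂, L, H⟩ := exists_adapted A hA (quasi_det hk h0)
      exact ih k₂ H.lt n (d + k₁) N (PM d k₁ B (Tor k₁)) (Th2 Θ H) r hr F (F1 Θ hm H h) A₂
        (fun z => lin L z.2 + lin P₂ (c z.1)) H.unit (quasi_adapted H hq)
        (fun z w => F_Th2 Θ hm H h z w) (affine_step Θ hr h hf hm H)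

/-! ### no base -/

theorem near_point (r : ℕ∞) : Near (Diffeomorph.refl (𝓡 0) (V 0) r : DiffM 0 (V 0) r)
    fun g => GradLike g := by
  intro U _ hU
  refine ⟨_, hU, Set.toFinite _, fun x _ z _ => ?_⟩
  exact ⟨1, one_pos, Subsingleton.elim _ _⟩

/-- the product of a point and the torus -/
noncomputable def ptCoord {n k : ℕ} {N : Type u} [TopologicalSpace N] [ChartedSpace (V n) N]
    (θ : Diffeomorph (𝓡 k) (𝓡 n) (Tor k) N ∞) : ProdDiff n 0 k N (V 0) (Tor k) where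
  toFun z := θ z.2
  invFun x := (0, θ.symm x)
  left_inv z := by
    refine Prod.ext (Subsingleton.elim _ _) ?_
    exact θ.symm_apply_apply z.2
  right_inv x := θ.apply_symm_apply x
  contMDiff_toFun := θ.contMDiff.comp contMDiff_snd
  contMDiff_invFun := contMDiff_const.prodMk θ.symm.contMDiff

end Pool.Agent.H66.GL
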