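import Pool.Agent.H66.GL.Main
import Pool.Agent.H66.L.T64922ed1.X84.Pm.Near

/-!
# Elements of compact abelian groups become gradient-like under small perturbations
-/

set_option autoImplicit false
set_option linter.unusedSectionVars false

open scoped Topology ContDiff Manifold
open Set Filter Function

universe w

namespace Pool.Agent.H66.GL

open Pool.Agent.X84.Fl Pool.Agent.X84.Fm Pool.Agent.X84.Tor Pool.Agent.X84.Pm
open Pool.Agent.H718R2.G Pool.Agent.TH80.OMS Pool.Agent.Y504.CO Pool.Agent.Y318.MN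
open Pool.Agent.W564.SC Pool.Agent.Helper186

variable {l : ℕ} {K : Type w} [TopologicalSpace K] [ChartedSpace (V l) K] [IsManifold (𝓡 l) ∞ K]
  [T2Space K] [CompactSpace K]

theorem morse_finite {h : K → ℝ} (hh : ContMDiff (𝓡 l) 𝓘(ℝ, ℝ) ∞ h)
    (hnd : ∀ z, IsCrit l h z → Nondeg l h z) : {z | IsCrit l h z}.Finite := by
  by_contra hinf
  obtain ⟨x, hx, hacc⟩ := Set.Infinite.exists_accPt_of_subset_isCompact hinf
    (crit_closed hh).isCompact Subset.rfl
  rw [accPt_iff_frequently_nhdsNE] at hacc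
  have h1 := nondeg_isolated hh hx (hnd x hx)
  apply hacc
  filter_upwards [nhdsWithin_le_nhds (s := {x}ᶜ) h1, self_mem_nhdsWithin] with y hy hne hcon
  exact hne (hy hcon)

theorem strict_time {X : (x : K) → TangentSpace (𝓡 l) x} {φ : Flow ℝ K}
    (hφ : IsFl (E := V l) X φ) {h : K → ℝ} (hh : ContMDiff (𝓡 l) 𝓘(ℝ, ℝ) ∞ h)
    (hX : ∀ x, (0 : ℝ) ≤ dForm (𝓡 l) h x (X x)) {x : K} {T : ℝ} (hT : 0 < T)
    (heq : h (φ T x) = h x) : dForm (𝓡 l) h x (X x) = 0 := by
  have hmono := mono_along (E := V l) hφ hh hX x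
  have h1 := (along (E := V l) hφ hh x 0).hasDerivWithinAt (s := Icc (0 : ℝ) T)
  have h2 : HasDerivWithinAt (fun s => h (φ s x)) 0 (Icc (0 : ℝ) T) 0 := by
    refine (hasDerivWithinAt_const (0 : ℝ) (Icc (0 : ℝ) T) (h x)).congr ?_ ?_
    · intro s hs
      have h3 := hmono hs.1
      have h4 := hmono hs.2
      simp only [Flow.map_zero_apply] at h3 h4
      rw [heq] at h4
      exact le_antisymm h4 h3
    · rw [Flow.map_zero_apply]
  have h3 := (uniqueDiffOn_Icc hT 0 (left_mem_Icc.2 hT.le)).eq_deriv _ h1 h2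
  rw [Flow.map_zero_apply] at h3
  exact h3

theorem gradLike_of_lyap' {X : Type*} [TopologicalSpace X] [CompactSpace X]
    [TopologicalSpace.MetrizableSpace X] {g : X → X} (hg : Continuous g) (hgi : Injective g)
    {q : X → ℝ} (hq : Continuous q) (hm : ∀ x, q x ≤ q (g x)) (hE : {x | q (g x) = q x}.Finite) :
    GradLike g := by
  letI : MetricSpace X := TopologicalSpace.metrizableSpaceMetric X
  exact gradLike_of_lyap hg hgi hq hm hE

/-- the action of a flow -/
theorem sact_flow {X : (x : K) → TangentSpace (𝓡 l) x} (hX : SmF (E := V l) X) {φ : Flow ℝ K}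
    (hφ : IsFl (E := V l) X φ) : SAct l 1 (fun (s : Fin 1 → ℝ) (y : K) => φ (s 0) y) := by
  refine ⟨?_, fun x => Flow.map_zero_apply _ _, fun s t x => φ.map_add _ _ _⟩
  have : IsManifold (𝓡 l) 1 K := IsManifold.of_le (n := ∞) (by simp)
  have h1 := contMDiff_flow (I := 𝓡 l) hX (Fl := fun x t => φ t x)
    (fun x => Flow.map_zero_apply _ _) hφ
  have h2 : ContMDiff (𝓘(ℝ, Fin 1 → ℝ).prod (𝓡 l)) ((𝓡 l).prod 𝓘(ℝ, ℝ)) ∞
      (fun p : (Fin 1 → ℝ) × K => (p.2, p.1 0)) := by
    refine contMDiff_snd.prodMk ?_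
    have h3 : ContMDiff 𝓘(ℝ, Fin 1 → ℝ) 𝓘(ℝ, ℝ) ∞ (fun s : Fin 1 → ℝ => s 0) :=
      (ContinuousLinearMap.proj (R := ℝ) (φ := fun _ : Fin 1 => ℝ) 0).contDiff.contMDiff
    exact h3.comp contMDiff_fst
  exact h1.comp h2

/-- maps of finite order -/
theorem pb_order {P : K → K} (hP : ContMDiff (𝓡 l) (𝓡 l) ∞ P) {m : ℕ} (hm : 1 ≤ m)
    (hPm : P^[m] = id) : Pb l P := by
  obtain ⟨q, ⟨hqs, hqP⟩, hnd⟩ := inv_morse hP hm hPm
    (fun q => ContMDiff (𝓡 l) 𝓘(ℝ, ℝ) ∞ q ∧ ∀ x, q (P x) = q x) (fun h hh => hh)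
    (fun h hh k g hg hgP => Eventually.of_forall fun s => ⟨pf_smooth (E := V l) hh.1 hg s, fun x => by
      show h (P x) + ∑ i, s i * g i (P x) = h x + ∑ i, s i * g i x
      rw [hh.2]
      congr 1
      exact Finset.sum_congr rfl fun i _ => by rw [hgP]⟩)
    (h := fun _ => 0) ⟨contMDiff_const, fun _ => rfl⟩
  obtain ⟨Gr, hGr, hGrc⟩ := exists_gradient (n := l) (N := K)
  let qf : Defs.Fun (V l) K := ⟨q, hqs⟩
  obtain ⟨φ, hφ⟩ := exists_flow (E := V l) (Gr qf).2
  have hPi : Injective P := by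
    intro x y hxy
    have h1 : P^[m] x = P^[m] y := by
      obtain ⟨m, rfl⟩ : ∃ m', m = m' + 1 := ⟨m - 1, by omega⟩
      rw [iterate_succ_apply, iterate_succ_apply, hxy]
    rwa [hPm] at h1
  have hmet : TopologicalSpace.MetrizableSpace K := exists_metric l K
  refine Pb.pert P 1 _ (sact_flow (Gr qf).2 hφ) (fun κ => fun _ => κ / 2) (fun κ hκ => ?_)
    fun κ hκ => Pb.grad _ ?_
  · refine lt_of_le_of_lt ((pi_norm_le_iff_of_nonneg (by positivity)).2 fun _ => ?_)
      (half_lt_self hκ)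
    rw [Real.norm_of_nonneg (by positivity)]
  · have hφc : Continuous (φ (κ / 2)) := φ.continuous continuous_const continuous_id
    refine gradLike_of_lyap' (hφc.comp hP.continuous) ?_ hqs.continuous (fun x => ?_) ?_
    · intro x y hxy
      apply hPi
      have h1 : φ (κ / 2) (P x) = φ (κ / 2) (P y) := hxy
      have h2 := congrArg (φ (-(κ / 2))) h1
      rwa [← φ.map_add, ← φ.map_add, neg_add_cancel, Flow.map_zero_apply,
        Flow.map_zero_apply] at h2
    · have h1 := mono_along (E := V l) hφ hqs (fun x => hGr qf x) (P x)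
        (show (0 : ℝ) ≤ κ / 2 by positivity)
      simp only [Flow.map_zero_apply] at h1
      rw [hqP] at h1
      exact h1
    · refine ((morse_finite hqs hnd).preimage hPi.injOn).subset fun x hx => ?_
      have h1 : q (φ (κ / 2) (P x)) = q (P x) := by
        rw [hqP]
        exact hx
      exact hGrc qf (P x) (strict_time hφ hqs (fun x => hGr qf x) (by positivity) h1)

/-- **Elements of compact abelian groups.** -/
theorem pb_compactAbelian {R : K → K} (hR : CompactAbelian (V l) R) : Pb l R := by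
  obtain ⟨k, ρ, Q, t, hρ, hQ, ⟨m, hm1, hQm⟩, hQρ, -, -, hRx⟩ := hR
  choose! s d hs hd hker using fun κ (hκ : 0 < κ) => exists_rational hρ t hκ
  refine Pb.pert R k ρ ⟨hρ.1, hρ.2.1, hρ.2.2.1⟩ s hs fun κ hκ => ?_
  have e1 : ρ (s κ) ∘ R = Q ∘ ρ (t + s κ) := by
    funext x
    show ρ (s κ) (R x) = Q (ρ (t + s κ) x)
    rw [hRx, ← hQρ, ← hρ.2.2.1, add_comm]
  rw [e1]
  refine pb_order (hQ.comp (act_smooth hρ _)) (m := m * d κ) (Nat.mul_pos hm1 (hd κ hκ)) ?_
  funext x
  rw [comm_iter hρ hQρ]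
  have e1 : Q^[m * d κ] = id := by
    rw [Function.iterate_mul, hQm]
    exact Function.iterate_id _
  have e2 : ((m * d κ : ℕ) : ℝ) • (t + s κ) ∈ ker hρ := by
    have := AddSubgroup.nsmul_mem (ker hρ) (hker κ hκ) m
    rw [← Nat.cast_smul_eq_nsmul ℝ, smul_smul] at this
    push_cast
    exact this
  rw [e1]
  exact e2 x

variable {n : ℕ} {N : Type w} [TopologicalSpace N] [ChartedSpace (V n) N] [IsManifold (𝓡 n) ∞ N]
  [T2Space N] [CompactSpace N] {r : ℕ∞}

/-- **Symmetric monotone maps.** -/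
theorem near_gradLike_sym (hr : 1 ≤ r) {F : DiffM n N r} (hF : SymmetricMonotone (V n) F) :
    Pool.Agent.W5h32.PT.Near F fun G => GradLike G := by
  intro U hU hFU
  obtain ⟨q, G, hGU, hq, hm, hnd⟩ := near_sym hr hF U hU hFU
  obtain ⟨Φ, G', hG'U, hG', hΦ⟩ := exists_push hq hr G U hU hGU
  refine ⟨G', hG'U, ?_⟩
  have hmet : TopologicalSpace.MetrizableSpace N := exists_metric n N
  refine gradLike_of_lyap' G'.continuous G'.injective hq.continuous (fun x => ?_) ?_
  · rw [hG']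
    exact (hΦ.le x).trans (hm _)
  · refine (morse_finite hq hnd).subset fun x hx => ?_
    have h1 : q (G' x) = q x := hx
    rw [hG'] at h1
    have h2 : q (Φ x) = q x := le_antisymm (h1 ▸ hm (Φ x)) (hΦ.le x)
    exact hΦ.crit x (mem_univ x) (hΦ.eq x h2)

end Pool.Agent.H66.GL
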