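import Pool.Agent.H66.GL.Ca

/-!
# Isometric extensions: assembly
-/

set_option autoImplicit false
set_option linter.unusedSectionVars false

open scoped Topology ContDiff Manifold
open Set Filter Function MeasureTheory

universe u v w

namespace Pool.Agent.H66.GL

open Pool.Agent.H718R2.G Pool.Agent.W5h32.TX Pool.Agent.X84.Pm
open Pool.Agent.W5h32.PT (Near)
open Pool.Agent.R773.TE (ProdDiff proj)
open Pool.Agent.H728R2.FA (omegaLim FiniteAttractors)
open Pool.Agent.Y504.CO (exists_metric)

theorem Near.trans {n : ℕ} {N : Type u} [TopologicalSpace N] [ChartedSpace (V n) N] {r : ℕ∞}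
    {F : DiffM n N r} {P Q : DiffM n N r → Prop} (h : Near F P) (hPQ : ∀ G, P G → Near G Q) :
    Near F Q := by
  intro U hU hFU
  obtain ⟨G, hGU, hG⟩ := h U hU hFU
  exact hPQ G hG U hU hGU

variable {n : ℕ} {N : Type u} [TopologicalSpace N] [T2Space N] [CompactSpace N]
  [ChartedSpace (V n) N] [IsManifold (𝓡 n) ∞ N] {r : ℕ∞}

/-- gradient-like diffeomorphisms: `ω`-limit sets and attractors -/
theorem gradLike_concl (G : DiffM n N r) (hG : GradLike G) :
    (∀ x, ∃ p ∈ periodicPts G, omegaLim G x = range fun k : ℕ => G^[k] p) ∧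
      ∀ (_ : MeasurableSpace N) (μ : Measure N), FiniteAttractors μ G := by
  have hmet : TopologicalSpace.MetrizableSpace N := exists_metric n N
  refine ⟨fun x => ?_, fun m μ => (Tame.attr (hG.tame G.continuous)).2 m μ⟩
  letI : MetricSpace N := TopologicalSpace.metrizableSpaceMetric N
  obtain ⟨p, hp, hlim⟩ := hG.asymp G.continuous (x := fun k => G^[k] x) (by
    have : (fun k => dist (G (G^[k] x)) (G^[k + 1] x)) = fun _ => (0 : ℝ) := by
      funext k
      rw [iterate_succ_apply', dist_self]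
    rw [this]
    exact tendsto_const_nhds)
  have hfin : (range fun k : ℕ => G^[k] p).Finite :=
    hG.1.subset (by rintro _ ⟨k, rfl⟩; exact per_iter hp k)
  refine ⟨p, hp, Subset.antisymm ?_ ?_⟩
  · intro q hq
    rw [← hfin.isClosed.closure_eq, Metric.mem_closure_iff]
    intro ε hε
    obtain ⟨M, hM⟩ := Metric.tendsto_atTop.mp hlim (ε / 2) (by positivity)
    obtain ⟨k, hk, hk'⟩ := hq _ (Metric.ball_mem_nhds q (show (0:ℝ) < ε / 2 by positivity)) M
    refine ⟨_, ⟨k, rfl⟩, ?_⟩
    have h1 := hM k hk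
    rw [Real.dist_0_eq_abs, abs_of_nonneg dist_nonneg] at h1
    calc dist q (G^[k] p) ≤ dist q (G^[k] x) + dist (G^[k] x) (G^[k] p) := dist_triangle _ _ _
      _ < ε / 2 + ε / 2 := add_lt_add (by rw [dist_comm]; exact hk') h1
      _ = ε := by ring
  · rintro _ ⟨k, rfl⟩
    intro U hU M
    obtain ⟨ε, hε, hball⟩ := Metric.mem_nhds_iff.mp hU
    obtain ⟨M', hM'⟩ := Metric.tendsto_atTop.mp hlim ε hε
    obtain ⟨m, hm, hpm⟩ := hp
    refine ⟨k + m * (M + M'), ?_, hball ?_⟩
    · have : M + M' ≤ m * (M + M') := Nat.le_mul_of_pos_left _ hm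
      omega
    · have h1 := hM' (k + m * (M + M')) (by
        have : M + M' ≤ m * (M + M') := Nat.le_mul_of_pos_left _ hm
        omega)
      rw [Real.dist_0_eq_abs, abs_of_nonneg dist_nonneg] at h1
      have h2 : G^[k + m * (M + M')] p = G^[k] p := by
        rw [iterate_add_apply]
        congr 1
        exact (hpm.mul_const _).eq
      rw [h2] at h1
      exact h1

/-- skew products in coordinates -/
theorem ext_coord {d l : ℕ} {B : Type v} [TopologicalSpace B] [ChartedSpace (V d) B]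
    {K : Type w} [TopologicalSpace K] [ChartedSpace (V l) K] (Θ : ProdDiff n d l N B K)
    (F : DiffM n N r) (f : DiffM d B r) (R : B → K → K)
    (h : ∀ b y, F (Θ (b, y)) = Θ (f b, R b y)) :
    (∀ x, proj Θ (F x) = f (proj Θ x)) ∧ ∀ b, fibreMap Θ F b = R b := by
  constructor
  · intro x
    obtain ⟨⟨b, y⟩, rfl⟩ : ∃ z, Θ z = x := ⟨Θ.symm x, Θ.apply_symm_apply x⟩
    unfold proj
    rw [h, Θ.symm_apply_apply, Θ.symm_apply_apply]
  · intro b
    funext y
    show (Θ.symm (F (Θ (b, y)))).2 = R b y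
    rw [h, Θ.symm_apply_apply]

end Pool.Agent.H66.GL
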