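import Pool.Agent.H66.GL.Fin

/-!
# Skew products whose fibre maps do not decrease a common function
-/

set_option autoImplicit false
set_option linter.unusedSectionVars false

open scoped Topology ContDiff Manifold
open Set Filter Function

universe u v w

namespace Pool.Agent.H66.GL

open Pool.Agent.X84.Fl Pool.Agent.X84.Fm Pool.Agent.X84.Tor Pool.Agent.X84.Pm
open Pool.Agent.H718R2.G Pool.Agent.TH80.OMS Pool.Agent.Y504.CO Pool.Agent.Y318.MN
open Pool.Agent.W564.SC Pool.Agent.Helper186
open Pool.Agent.R773.TE (ProdDiff proj)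

/-- maps which do not decrease a function with finitely many critical points -/
theorem pb_monotone {l : ℕ} {K : Type w} [TopologicalSpace K] [ChartedSpace (V l) K]
    [IsManifold (𝓡 l) ∞ K] [T2Space K] [CompactSpace K] {h : K → ℝ}
    (hh : ContMDiff (𝓡 l) 𝓘(ℝ, ℝ) ∞ h) (hfin : {z | IsCrit l h z}.Finite) {R : K → K}
    (hRc : Continuous R) (hRi : Injective R) (hR : ∀ x, h x ≤ h (R x)) : Pb l R := by
  obtain ⟨Gr, hGr, hGrc⟩ := exists_gradient (n := l) (N := K)
  let qf : Defs.Fun (V l) K := ⟨h, hh⟩
  obtain ⟨φ, hφ⟩ := exists_flow (E := V l) (Gr qf).2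
  have hmet : TopologicalSpace.MetrizableSpace K := exists_metric l K
  refine Pb.pert R 1 _ (sact_flow (Gr qf).2 hφ) (fun κ => fun _ => κ / 2) (fun κ hκ => ?_)
    fun κ hκ => Pb.grad _ ?_
  · refine lt_of_le_of_lt ((pi_norm_le_iff_of_nonneg (by positivity)).2 fun _ => ?_)
      (half_lt_self hκ)
    rw [Real.norm_of_nonneg (by positivity)]
  · have hφc : Continuous (φ (κ / 2)) := φ.continuous continuous_const continuous_id
    have hup : ∀ y, h y ≤ h (φ (κ / 2) y) := by
      intro y
      have h1 := mono_along (E := V l) hφ hh (fun x => hGr qf x) y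
        (show (0 : ℝ) ≤ κ / 2 by positivity)
      simp only [Flow.map_zero_apply] at h1
      exact h1
    refine gradLike_of_lyap' (hφc.comp hRc) ?_ hh.continuous (fun x => ?_) ?_
    · intro x y hxy
      apply hRi
      have h1 : φ (κ / 2) (R x) = φ (κ / 2) (R y) := hxy
      have h2 := congrArg (φ (-(κ / 2))) h1
      rwa [← φ.map_add, ← φ.map_add, neg_add_cancel, Flow.map_zero_apply,
        Flow.map_zero_apply] at h2
    · exact (hR x).trans (hup _)
    · refine (hfin.preimage hRi.injOn).subset fun x hx => ?_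
      have h1 : h (φ (κ / 2) (R x)) = h x := hx
      have h2 : h (φ (κ / 2) (R x)) = h (R x) :=
        le_antisymm (h1.le.trans (hR x)) (hup _)
      exact hGrc qf (R x) (strict_time hφ hh (fun x => hGr qf x) (by positivity) h2)

/-- the fibre maps of a skew product are continuous and injective -/
theorem fibre_cont {n d l : ℕ} {N : Type u} [TopologicalSpace N] [ChartedSpace (V n) N]
    {B : Type v} [TopologicalSpace B] [ChartedSpace (V d) B]
    {K : Type w} [TopologicalSpace K] [ChartedSpace (V l) K] {r : ℕ∞}
    (Θ : ProdDiff n d l N B K) (F : DiffM n N r) (f : DiffM d B r) (R : B → K → K)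
    (h : ∀ b y, F (Θ (b, y)) = Θ (f b, R b y)) (b : B) : Continuous (R b) ∧ Injective (R b) := by
  have e : R b = fun y => (Θ.symm (F (Θ (b, y)))).2 := by
    funext y
    rw [h, Θ.symm_apply_apply]
  constructor
  · rw [e]
    exact continuous_snd.comp (Θ.symm.continuous.comp
      (F.continuous.comp (Θ.continuous.comp (Continuous.prodMk_right b))))
  · intro y y' hyy
    have h1 : F (Θ (b, y)) = F (Θ (b, y')) := by rw [h, h, hyy]
    have h2 := Θ.injective (F.injective h1)
    exact congrArg Prod.snd h2

end Pool.Agent.H66.GL
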