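import Pool.Agent.H66.GL.Gen
import Pool.Agent.H66.GL.Fin
import Pool.Agent.H66.GL.Mon
import Pool.Agent.H66.TM.Cir

/-!
# Skew products with circle fibres
-/

set_option autoImplicit false
set_option linter.unusedSectionVars false

open scoped Manifold ContDiff Topology
open Set Filter Topology Function

universe u v w

namespace Pool.Agent.H66.GL

open Pool.Agent.H718R2.G Pool.Agent.W564.SC Pool.Agent.W5h32.TX
open Pool.Agent.W5h32.PT (Near)
open Pool.Agent.R773.TE (ProdDiff proj)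
open Pool.Agent.Y504.CO (exists_metric)
open Pool.Agent.H66.TM
open Pool.Agent.Q182 (OT.add_int OT.exists_per)
open Pool.Agent.Q182.CC (Lift Good exists_good exists_lyap zeros_fin)

/-- `f` is a lift of the circle map `R` -/
def HasLift (R : Tor 1 → Tor 1) (f : ℝ → ℝ) : Prop := ∀ t, R (cir t) = cir (f t)

theorem per_int {L : ℝ → ℝ} (h : ∀ t, L (t + 1) = L t) (z : ℤ) (t : ℝ) : L (t + z) = L t := by
  have h1 := OT.add_int (f := fun t => L t + t) (fun t => by
    show L (t + 1) + (t + 1) = L t + t + 1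
    rw [h]
    ring) z t
  linarith

/-- (helper182's library) -/
theorem lift_bump {θ : ℝ → ℝ} (hθ : ContDiff ℝ ∞ θ) (hp : ∀ t, θ (t + 1) = θ t) :
    ∃ ε : ℝ, 0 < ε ∧ ∀ s, |s| ≤ ε → Lift (fun t => t + s * θ t) := by
  have h1 : ContDiff ℝ 1 θ := hθ.of_le (by simp)
  have hc : Continuous (deriv θ) := h1.continuous_deriv le_rfl
  have hd : Differentiable ℝ θ := h1.differentiable one_ne_zero
  have hper : Function.Periodic (deriv θ) 1 := by
    intro t
    have h3 : HasDerivAt (fun t : ℝ => t + 1) 1 t := (hasDerivAt_id t).add_const (1 : ℝ)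
    have h4 := (hd (t + 1)).hasDerivAt.comp t h3
    rw [mul_one] at h4
    have h5 : (θ ∘ fun t : ℝ => t + 1) = θ := funext hp
    rw [h5] at h4
    exact h4.unique (hd t).hasDerivAt
  obtain ⟨C, hC⟩ := (hper.compact_of_continuous one_ne_zero hc).isBounded.exists_norm_le
  have hC' : ∀ t, |deriv θ t| ≤ |C| + 1 := fun t =>
    (hC _ (mem_range_self t)).trans ((le_abs_self C).trans (by linarith))
  have hC0 : 0 < |C| + 1 := by positivity
  refine ⟨1 / (2 * (|C| + 1)), by positivity, fun s hs => ?_⟩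
  have hder : ∀ t, HasDerivAt (fun t => t + s * θ t) (1 + s * deriv θ t) t := fun t =>
    (hasDerivAt_id t).add ((hd t).hasDerivAt.const_mul s)
  refine ⟨contDiff_id.add (contDiff_const.mul h1), fun t => ?_, fun t => by
    show t + 1 + s * θ (t + 1) = t + s * θ t + 1
    rw [hp]
    ring⟩
  rw [(hder t).deriv]
  have h6 : |s * deriv θ t| ≤ 1 / 2 := by
    rw [abs_mul]
    calc |s| * |deriv θ t| ≤ (1 / (2 * (|C| + 1))) * (|C| + 1) := by
          gcongr
          exact hC' t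
      _ = 1 / 2 := by field_simp
  have := (abs_le.1 h6).1
  linarith

/-- periodic functions are functions on the circle -/
theorem exists_desc {L : ℝ → ℝ} (hc : Continuous L) (h : ∀ t, L (t + 1) = L t) :
    ∃ l : Tor 1 → ℝ, Continuous l ∧ ∀ t, l (cir t) = L t := by
  choose s hs using cir_surj
  have key : ∀ t, L (s (cir t)) = L t := by
    intro t
    obtain ⟨z, hz⟩ := cir_eq.mp (hs (cir t))
    rw [hz, per_int h]
  refine ⟨fun y => L (s y), ?_, key⟩
  rw [cir_quot.continuous_iff]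
  have e : (fun y => L (s y)) ∘ cir = L := funext key
  rw [e]
  exact hc

theorem HasLift.inj {R : Tor 1 → Tor 1} {f : ℝ → ℝ} (h : HasLift R f) (hf : Lift f) :
    Injective R := by
  intro x y hxy
  obtain ⟨s, rfl⟩ := cir_surj x
  obtain ⟨t, rfl⟩ := cir_surj y
  rw [h, h, cir_eq] at hxy
  obtain ⟨z, hz⟩ := hxy
  rw [← OT.add_int hf.one z t] at hz
  rw [cir_eq]
  exact ⟨z, hf.mono.injective hz⟩

theorem HasLift.cont {R : Tor 1 → Tor 1} {f : ℝ → ℝ} (h : HasLift R f) (hf : Lift f) :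
    Continuous R := by
  rw [cir_quot.continuous_iff]
  have e : R ∘ cir = cir ∘ f := funext h
  rw [e]
  exact cir_cont.comp hf.cont

/-- circle maps with nondegenerate periodic points are gradient-like -/
theorem gradLike_of_good {R : Tor 1 → Tor 1} {f : ℝ → ℝ} (h : HasLift R f) (hf : Lift f) {q : ℕ}
    {p : ℤ} (hG : Good q p f) : GradLike R := by
  obtain ⟨L, hLc, hL1, hLm, hLe, -⟩ := exists_lyap hf hG
  obtain ⟨l, hlc, hl⟩ := exists_desc hLc hL1
  have hmet : TopologicalSpace.MetrizableSpace (Tor 1) := exists_metric 1 (Tor 1)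
  refine gradLike_of_lyap' (h.cont hf) (h.inj hf) hlc (fun x => ?_) ?_
  · obtain ⟨t, rfl⟩ := cir_surj x
    rw [h, hl, hl]
    exact hLm t
  · refine ((zeros_fin (hf.iter q) hG.2.2).image cir).subset ?_
    intro x hx
    obtain ⟨t, rfl⟩ := cir_surj x
    have h1 : l (R (cir t)) = l (cir t) := hx
    rw [h, hl, hl] at h1
    have h2 := hLe t h1
    refine ⟨Int.fract t, ⟨⟨Int.fract_nonneg _, (Int.fract_lt_one _).le⟩, ?_⟩, ?_⟩
    · show (f^[q]) (Int.fract t) = Int.fract t + p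
      have h3 := OT.add_int (f := f^[q]) (hf.iter q).one ⌊t⌋ (Int.fract t)
      rw [Int.fract_add_floor] at h3
      have h4 := Int.fract_add_floor t
      linarith
    · rw [cir_eq]
      exact ⟨-⌊t⌋, by rw [Int.fract]; push_cast; ring⟩

variable {n d : ℕ} {N : Type u} [TopologicalSpace N] [T2Space N] [CompactSpace N]
  [ChartedSpace (V n) N] [IsManifold (𝓡 n) ∞ N]
  {B : Type v} [TopologicalSpace B] [T2Space B] [CompactSpace B] [ChartedSpace (V d) B]
  [IsManifold (𝓡 d) ∞ B] {r : ℕ∞}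

theorem rot_fl : Fl 1 rot where
  smooth := rot_smooth
  zero y := by
    obtain ⟨t, rfl⟩ := cir_surj y
    rw [rot_cir, zero_add]
  add s t y := by
    obtain ⟨u, rfl⟩ := cir_surj y
    rw [rot_cir, rot_cir, rot_cir, add_assoc]

theorem HasLift.pre {R : Tor 1 → Tor 1} {f : ℝ → ℝ} (h : HasLift R f) (s : ℝ) (ρ : Tor 1 → ℝ) :
    HasLift (fun y => R (rot (s * ρ y) y)) (fun t => f (t + s * ρ (cir t))) := by
  intro t
  show R (rot (s * ρ (cir t)) (cir t)) = _
  rw [rot_cir, h, add_comm]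

section

variable {Θ : ProdDiff n d 1 N B (Tor 1)} {g : B → B} {U : Set (DiffM n N r)} {p₀ : B}

/-- a periodic point and a point which is not periodic -/
theorem ooC (hr : 1 ≤ r) (hg : (periodicPts g).Finite) (hU : IsOpen[strongTop n N r] U)
    (hp : p₀ ∈ periodicPts g) {R : Tor 1 → Tor 1} {f : ℝ → ℝ} (h : HasLift R f) (hf : Lift f)
    {q : ℕ} {p : ℤ} {w u0 : ℝ} (hw : f^[q + 1] w = w + p) (hu : f^[q + 1] u0 ≠ u0 + p) :
    OO Θ g U p₀ R := by
  refine OO.pre hr hg hU hp rot_fl (ρ := fun _ => 1) contMDiff_const fun κ hκ => ?_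
  obtain ⟨s, hs, hgood⟩ := exists_good hf q p hw hu (half_pos hκ)
  refine ⟨s, lt_of_le_of_lt hs (half_lt_self hκ), OO.grad ?_⟩
  have h1 := h.pre s (fun _ => 1)
  have e : (fun t => f (t + s * 1)) = Pool.Agent.Q182.OT.sh f s := by
    funext t
    rw [mul_one]
    rfl
  rw [e] at h1
  exact gradLike_of_good h1 (hf.sh s) hgood

/-- a periodic point -/
theorem ooB (hr : 1 ≤ r) (hg : (periodicPts g).Finite) (hU : IsOpen[strongTop n N r] U)
    (hp : p₀ ∈ periodicPts g) {R : Tor 1 → Tor 1} {f : ℝ → ℝ} (h : HasLift R f) (hf : Lift f)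
    {q : ℕ} {p : ℤ} {w1 : ℝ} (hw1 : f^[q + 1] w1 = w1 + p) : OO Θ g U p₀ R := by
  classical
  by_cases hall : ∀ t, f^[q + 1] t = t + p
  swap
  · push Not at hall
    obtain ⟨u0, hu0⟩ := hall
    exact ooC hr hg hU hp h hf hw1 hu0
  obtain ⟨w, hw⟩ : ∃ w : ℝ, ∀ (k : ℕ) (z : ℤ), w ≠ f^[k] 0 + z := by
    by_contra hcon
    push Not at hcon
    have h1 : (univ : Set ℝ) ⊆ range fun x : ℕ × ℤ => f^[x.1] 0 + (x.2 : ℝ) := by
      intro w _
      obtain ⟨k, z, hkz⟩ := hcon w
      exact ⟨(k, z), hkz.symm⟩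
    exact not_countable_univ ((countable_range _).mono h1)
  set O : Set (Tor 1) := cir '' ((fun k => f^[k] w) '' (Iic q)) with hO
  have hOf : O.Finite := ((finite_Iic q).image _).image _
  have h0O : cir 0 ∉ O := by
    rintro ⟨_, ⟨k, hk, rfl⟩, he⟩
    obtain ⟨z, hz⟩ := cir_eq.1 he
    rw [zero_add] at hz
    have hk' : k ≤ q := hk
    have h1 : f^[q + 1 - k] (f^[k] w) = w + p := by
      rw [← Function.iterate_add_apply, Nat.sub_add_cancel (by omega)]
      exact hall w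
    simp only at hz
    rw [hz] at h1
    have h2 := OT.add_int (f := f^[q + 1 - k]) (hf.iter _).one z 0
    rw [zero_add] at h2
    rw [h2] at h1
    exact hw (q + 1 - k) (z - p) (by push_cast; linarith)
  have hd2 : Disjoint O {cir 0} := by
    rw [Set.disjoint_right]
    rintro y rfl hy
    exact h0O hy
  obtain ⟨ρ2, hρ20, hρ21, hρ2r⟩ := exists_contMDiffMap_zero_one_of_isClosed (n := ⊤) (𝓡 1)
    hOf.isClosed isClosed_singleton hd2
  have hρ2 : ContMDiff (𝓡 1) 𝓘(ℝ, ℝ) ∞ ρ2 := ρ2.contMDiff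
  have hθ : ContDiff ℝ ∞ (fun t => ρ2 (cir t)) := (hρ2.comp cir_smooth).contDiff
  obtain ⟨ε, hε, hlift⟩ := lift_bump hθ (fun t => by
    rw [cir_eq.2 ⟨1, by push_cast; ring⟩])
  refine OO.pre hr hg hU hp rot_fl hρ2 fun κ hκ => ?_
  set s := min (κ / 2) ε with hs
  have hs0' : 0 < s := lt_min (half_pos hκ) hε
  set f2 : ℝ → ℝ := fun t => f (t + s * ρ2 (cir t)) with hf2
  have hl2 : Lift f2 := hf.comp (hlift s (by rw [abs_of_pos hs0']; exact min_le_right _ _))
  refine ⟨s, by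
    rw [abs_of_pos hs0']
    exact lt_of_le_of_lt (min_le_left _ _) (half_lt_self hκ), ?_⟩
  refine ooC hr hg hU hp (h.pre s ρ2) hl2 (q := q) (p := p) (w := w) (u0 := 0) ?_ ?_
  · have h1 : ∀ k, k ≤ q + 1 → f2^[k] w = f^[k] w := by
      intro k
      induction k with
      | zero => intro _; rfl
      | succ k ih =>
        intro hk
        rw [Function.iterate_succ_apply', Function.iterate_succ_apply', ih (by omega)]
        have h2 : ρ2 (cir (f^[k] w)) = 0 :=
          hρ20 ⟨_, ⟨k, show k ≤ q by omega, rfl⟩, rfl⟩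
        show f (f^[k] w + s * ρ2 (cir (f^[k] w))) = _
        rw [h2, mul_zero, add_zero]
    rw [h1 _ le_rfl]
    exact hall w
  · have h1 : f ≤ f2 := by
      intro t
      apply hf.mono.monotone
      have h3 : 0 ≤ ρ2 (cir t) := (hρ2r _).1
      have := mul_nonneg hs0'.le h3
      linarith
    have h2 : f 0 < f2 0 := by
      apply hf.mono
      have h3 : ρ2 (cir 0) = 1 := hρ21 rfl
      rw [h3]
      linarith
    have h3 : f^[q + 1] 0 < f2^[q + 1] 0 := by
      rw [Function.iterate_succ_apply, Function.iterate_succ_apply]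
      exact ((hf.iter q).mono h2).trans_le
        ((hf.mono.monotone.iterate_le_of_le h1 q) (f2 0))
    rw [hall 0] at h3
    exact h3.ne'

/-- circle maps -/
theorem oo_circle (hr : 1 ≤ r) (hg : (periodicPts g).Finite) (hU : IsOpen[strongTop n N r] U)
    (hp : p₀ ∈ periodicPts g) {R : Tor 1 → Tor 1} {f : ℝ → ℝ} (h : HasLift R f) (hf : Lift f) :
    OO Θ g U p₀ R := by
  refine OO.pre hr hg hU hp rot_fl (ρ := fun _ => 1) contMDiff_const fun κ hκ => ?_
  obtain ⟨q, hq, s1, hs1, p, w1, hw1⟩ := OT.exists_per hf.cont hf.mono (half_pos hκ)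
  refine ⟨s1, lt_of_le_of_lt hs1 (half_lt_self hκ), ?_⟩
  have h1 := h.pre s1 (fun _ => 1)
  have e : (fun t => f (t + s1 * 1)) = Pool.Agent.Q182.OT.sh f s1 := by
    funext t
    rw [mul_one]
    rfl
  rw [e] at h1
  obtain ⟨q', rfl⟩ : ∃ q', q = q' + 1 := ⟨q - 1, by omega⟩
  exact ooB hr hg hU hp h1 (hf.sh s1) hw1

end

/-- **Skew products with circle fibres.** -/
theorem near_circle (Θ : ProdDiff n d 1 N B (Tor 1)) (hr : 1 ≤ r) {F : DiffM n N r}
    {f : DiffM d B r} {φ : B → ℝ → ℝ} (hφ : ∀ b, IsCircleLift (φ b))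
    (h : ∀ b t, F (Θ (b, cir t)) = Θ (f b, cir (φ b t))) (hf : Near f fun g => GradLike g) :
    Near F fun G => GradLike G := by
  have hle : (r : WithTop ℕ∞) ≤ ∞ := by exact_mod_cast le_top
  obtain ⟨R, hR⟩ : ∃ R : B → Tor 1 → Tor 1, R = fun b y => (Θ.symm (F (Θ (b, y)))).2 := ⟨_, rfl⟩
  have hRφ : ∀ b t, R b (cir t) = cir (φ b t) := by
    intro b t
    rw [hR]
    show (Θ.symm (F (Θ (b, cir t)))).2 = _
    rw [h, Θ.symm_apply_apply]
  have hFR : ∀ b y, F (Θ (b, y)) = Θ (f b, R b y) := by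
    intro b y
    obtain ⟨t, rfl⟩ := cir_surj y
    rw [h, hRφ]
  obtain ⟨hcov, hfib⟩ := ext_coord Θ F f R hFR
  have hlift : ∀ b, Lift (φ b) := by
    intro b
    have h1 : ContMDiff (𝓡 1) (𝓡 1) r (R b) := by
      rw [hR]
      have e1 : ContMDiff (𝓡 1) ((𝓡 d).prod (𝓡 1)) r (fun y : Tor 1 => (b, y)) :=
        contMDiff_const.prodMk contMDiff_id
      have e2 : ContMDiff (𝓡 1) ((𝓡 d).prod (𝓡 1)) r (fun y : Tor 1 => Θ.symm (F (Θ (b, y)))) :=
        (Θ.symm.contMDiff.of_le hle).comp (F.contMDiff.comp ((Θ.contMDiff.of_le hle).comp e1))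
      exact contMDiff_snd.comp e2
    have h2 : ContMDiff (𝓡 1) (𝓡 1) r
        (fun y : Tor 1 => (Θ.symm (F.symm (Θ (f b, y)))).2) := by
      have e1 : ContMDiff (𝓡 1) ((𝓡 d).prod (𝓡 1)) r (fun y : Tor 1 => (f b, y)) :=
        contMDiff_const.prodMk contMDiff_id
      have e2 : ContMDiff (𝓡 1) ((𝓡 d).prod (𝓡 1)) r
          (fun y : Tor 1 => Θ.symm (F.symm (Θ (f b, y)))) :=
        (Θ.symm.contMDiff.of_le hle).comp (F.symm.contMDiff.comp ((Θ.contMDiff.of_le hle).comp e1))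
      exact contMDiff_snd.comp e2
    refine lift_of (hφ b) hr h1 h2 (fun y => ?_) (hRφ b)
    rw [← hFR, F.symm_apply_apply, Θ.symm_apply_apply]
  refine near_gradLike' Θ hcov (𝒢 := {S | ∃ f, Lift f ∧ HasLift S f}) ?_ ?_ ?_ hf
  · rintro S ⟨a, ha, hS⟩ S' ⟨a', ha', hS'⟩
    refine ⟨a ∘ a', ha.comp ha', fun t => ?_⟩
    show S (S' (cir t)) = _
    rw [hS', hS]
    rfl
  · intro b
    rw [hfib]
    exact ⟨φ b, hlift b, hRφ b⟩
  · rintro g hg U hU p hp S ⟨a, ha, hS⟩
    exact oo_circle hr hg hU hp hS ha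

end Pool.Agent.H66.GL
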