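import Mathlib

/-!
# Gradient-like maps: definition
-/

set_option autoImplicit false

open Set Filter Topology Function

namespace Pool.Agent.H66.GL

/-- `x` is an asymptotic pseudo-orbit of `g`: the points `g (x n)` and `x (n + 1)` are arbitrarily
close to each other for large `n`. -/
def AsymPO {X : Type*} [TopologicalSpace X] (g : X → X) (x : ℕ → X) : Prop :=
  Tendsto (fun n => (g (x n), x (n + 1))) atTop (𝓝ˢ (diagonal X))

/-- `g` has finitely many periodic points, and all limit points of asymptotic pseudo-orbits are
periodic. (For a homeomorphism of a compact metric space this says that the chain recurrent set is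
finite.) -/
def GradLike {X : Type*} [TopologicalSpace X] (g : X → X) : Prop :=
  (periodicPts g).Finite ∧ ∀ x : ℕ → X, AsymPO g x → ∀ z, MapClusterPt z atTop x → z ∈ periodicPts g

end Pool.Agent.H66.GL
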