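import Pool.Agent.H66.GL.Main

/-!
# Perturbations of the return maps by precomposition
-/

set_option autoImplicit false
set_option linter.unusedSectionVars false

open scoped Manifold ContDiff Topology
open Set Filter Topology Function

universe u v w

namespace Pool.Agent.H66.GL

open Pool.Agent.H718R2.G Pool.Agent.W564.SC Pool.Agent.W5h32.TX
open Pool.Agent.W5h32.PT (Near)
open Pool.Agent.TH80.CLX (act_fam fam_mem)
open Pool.Agent.R773.TE (ProdDiff proj lf lf_apply exists_open liftD_apply)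
open Pool.Agent.Y504.CO (exists_metric)

variable {n d l : ℕ} {N : Type u} [TopologicalSpace N] [T2Space N] [CompactSpace N]
  [ChartedSpace (V n) N] [IsManifold (𝓡 n) ∞ N]
  {B : Type v} [TopologicalSpace B] [T2Space B] [CompactSpace B] [ChartedSpace (V d) B]
  [IsManifold (𝓡 d) ∞ B]
  {K : Type w} [TopologicalSpace K] [ChartedSpace (V l) K] [IsManifold (𝓡 l) ∞ K] {r : ℕ∞}

/-- smooth flows on the fibre -/
structure Fl (l : ℕ) {K : Type w} [TopologicalSpace K] [ChartedSpace (V l) K]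
    (ψ : ℝ → K → K) : Prop where
  smooth : ContMDiff (𝓘(ℝ, ℝ).prod (𝓡 l)) (𝓡 l) ∞ (fun q : ℝ × K => ψ q.1 q.2)
  zero : ∀ y, ψ 0 y = y
  add : ∀ s t y, ψ (s + t) y = ψ s (ψ t y)

/-- small perturbations by precomposition along the fibres -/
theorem pre_mem (Θ : ProdDiff n d l N B K) {ψ : ℝ → K → K} (hψ : Fl l ψ) {σ : B × K → ℝ}
    (hσ : ContMDiff ((𝓡 d).prod (𝓡 l)) 𝓘(ℝ, ℝ) ∞ σ) (hr : 1 ≤ r) (F : DiffM n N r)
    (U : Set (DiffM n N r)) (hU : IsOpen[strongTop n N r] U) (hFU : F ∈ U) :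
    ∃ κ : ℝ, 0 < κ ∧ ∀ s : ℝ, |s| < κ → ∃ G ∈ U, ∀ b y,
      G (Θ (b, y)) = F (Θ (b, ψ (s * σ (b, y)) y)) := by
  rcases isEmpty_or_nonempty N with hN | ⟨⟨z⟩⟩
  · exact ⟨1, one_pos, fun s _ => ⟨F, hFU, fun b y => (hN.false (Θ (b, y))).elim⟩⟩
  set A : V 1 → N → N := fun s x => Θ ((Θ.symm x).1, ψ (s 0) (Θ.symm x).2) with hA
  have hAs : ContMDiff ((𝓡 1).prod (𝓡 n)) (𝓡 n) ∞ (fun p : V 1 × N => A p.1 p.2) := by
    have h1 : ContMDiff ((𝓡 1).prod (𝓡 n)) ((𝓡 d).prod (𝓡 l)) ∞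
        (fun p : V 1 × N => Θ.symm p.2) := Θ.symm.contMDiff.comp contMDiff_snd
    have h2 : ContMDiff ((𝓡 1).prod (𝓡 n)) (𝓡 d) ∞
        (fun p : V 1 × N => (Θ.symm p.2).1) := contMDiff_fst.comp h1
    have h3 : ContMDiff ((𝓡 1).prod (𝓡 n)) (𝓡 l) ∞
        (fun p : V 1 × N => (Θ.symm p.2).2) := contMDiff_snd.comp h1
    have h4 : ContMDiff ((𝓡 1).prod (𝓡 n)) 𝓘(ℝ, ℝ) ∞ (fun p : V 1 × N => p.1 0) := by
      have h5 : ContMDiff (𝓡 1) 𝓘(ℝ, ℝ) ∞ (fun s : V 1 => s 0) :=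
        (EuclideanSpace.proj (𝕜 := ℝ) (0 : Fin 1)).contDiff.contMDiff
      exact h5.comp contMDiff_fst
    exact Θ.contMDiff.comp (h2.prodMk (hψ.smooth.comp (h4.prodMk h3)))
  have hρ : ContMDiff (𝓡 n) 𝓘(ℝ, ℝ) ∞ (fun x => σ (Θ.symm x)) := hσ.comp Θ.symm.contMDiff
  obtain ⟨H, κ, hκ, hH0, hHf, hH⟩ := act_fam (j := 1) (A := A) hAs hρ (fun x => by
      show Θ ((Θ.symm x).1, ψ ((0 : V 1) 0) (Θ.symm x).2) = x
      rw [PiLp.zero_apply, hψ.zero]
      exact Θ.apply_symm_apply x)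
    (fun s t x => by
      show Θ ((Θ.symm x).1, ψ ((s + t) 0) (Θ.symm x).2) =
        Θ ((Θ.symm (Θ ((Θ.symm x).1, ψ (t 0) (Θ.symm x).2))).1,
          ψ (s 0) (Θ.symm (Θ ((Θ.symm x).1, ψ (t 0) (Θ.symm x).2))).2)
      rw [Θ.symm_apply_apply, PiLp.add_apply, hψ.add]) r F
  obtain ⟨κ', hκ', hmem⟩ := fam_mem r hr H hHf z U hU (by rw [hH0]; exact hFU)
  refine ⟨min κ κ', lt_min hκ hκ', fun s hs => ?_⟩
  set τ : V 1 := EuclideanSpace.single 0 s with hτ
  have hτn : ‖τ‖ = |s| := by rw [hτ]; simp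
  have hτ0 : τ 0 = s := by rw [hτ]; simp
  refine ⟨H τ, hmem τ (by rw [hτn]; exact hs.trans_le (min_le_right _ _)), fun b y => ?_⟩
  rw [hH τ (by rw [hτn]; exact hs.trans_le (min_le_left _ _))]
  show F (Θ ((Θ.symm (Θ (b, y))).1, ψ ((σ (Θ.symm (Θ (b, y))) • τ) 0) (Θ.symm (Θ (b, y))).2)) = _
  rw [Θ.symm_apply_apply, PiLp.smul_apply, hτ0, smul_eq_mul, mul_comm]

/-- the property which is needed of the return map over the periodic point `p` -/
def OO (Θ : ProdDiff n d l N B K) (g : B → B) (U : Set (DiffM n N r)) (p : B) (R : K → K) : Prop :=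
  ∀ F ∈ U, (∀ x, proj Θ (F x) = g (proj Θ x)) → ret (co Θ F) (minimalPeriod g p) p = R →
    ∃ G ∈ U, (∀ x, proj Θ (G x) = g (proj Θ x)) ∧
      GradLike (ret (co Θ G) (minimalPeriod g p) p) ∧
      ∀ p' ∈ periodicPts g, (∀ i, g^[i] p' ≠ p) → ∀ m,
        ret (co Θ G) m p' = ret (co Θ F) m p'

theorem OO.grad {Θ : ProdDiff n d l N B K} {g : B → B} {U : Set (DiffM n N r)} {p : B} {R : K → K}
    (hR : GradLike R) : OO Θ g U p R :=
  fun F hFU hF hret => ⟨F, hFU, hF, by rw [hret]; exact hR, fun _ _ _ _ => rfl⟩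

theorem co_iter_of {Θ : ProdDiff n d l N B K} {F G : DiffM n N r} {g : B → B}
    (hF : ∀ x, proj Θ (F x) = g (proj Θ x)) {P : Set B}
    (h : ∀ b ∈ P, ∀ y, co Θ G (b, y) = co Θ F (b, y)) (m : ℕ) (b : B) (y : K)
    (hb : ∀ i < m, g^[i] b ∈ P) : (co Θ G)^[m] (b, y) = (co Θ F)^[m] (b, y) := by
  induction m with
  | zero => rfl
  | succ m ih =>
    rw [iterate_succ_apply', iterate_succ_apply', ih fun i hi => hb i (by omega)]
    have h1 : ((co Θ F)^[m] (b, y)).1 = g^[m] b := fst_iter (co_fst hF) m (b, y)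
    have h2 := h (g^[m] b) (hb m (Nat.lt_succ_self m)) ((co Θ F)^[m] (b, y)).2
    rw [← h1] at h2
    exact h2

/-- perturbation of the return map by precomposition -/
theorem OO.pre {Θ : ProdDiff n d l N B K} (hr : 1 ≤ r) {g : B → B} (hg : (periodicPts g).Finite)
    {U : Set (DiffM n N r)} (hU : IsOpen[strongTop n N r] U) {p : B} (hp : p ∈ periodicPts g)
    {R : K → K} {ψ : ℝ → K → K} (hψ : Fl l ψ) {ρ : K → ℝ} (hρ : ContMDiff (𝓡 l) 𝓘(ℝ, ℝ) ∞ ρ)
    (h : ∀ κ : ℝ, 0 < κ → ∃ s : ℝ, |s| < κ ∧ OO Θ g U p (fun y => R (ψ (s * ρ y) y))) :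
    OO Θ g U p R := by
  intro F hFU hF hret
  obtain ⟨χ, hχ, hχ1, hχ0⟩ := exists_chi (d := d) hg p
  have hσ : ContMDiff ((𝓡 d).prod (𝓡 l)) 𝓘(ℝ, ℝ) ∞ (fun z : B × K => χ z.1 * ρ z.2) :=
    (hχ.comp contMDiff_fst).mul (hρ.comp contMDiff_snd)
  obtain ⟨κ, hκ, hmem⟩ := pre_mem Θ hψ hσ hr F U hU hFU
  obtain ⟨s, hs, hOO⟩ := h κ hκ
  obtain ⟨G, hGU, hG⟩ := hmem s hs
  have hGp : ∀ x, proj Θ (G x) = g (proj Θ x) := by
    intro x
    rw [eq_Θ (Θ := Θ) x, hG, hF, proj_apply, proj_apply]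
  have hco : ∀ b y, co Θ G (b, y) = co Θ F (b, ψ (s * (χ b * ρ y)) y) := by
    intro b y
    show Θ.symm (G (Θ (b, y))) = Θ.symm (F (Θ (b, ψ (s * (χ b * ρ y)) y)))
    rw [hG]
  have hne : ∀ b ∈ {b | b ∈ periodicPts g ∧ b ≠ p}, ∀ y, co Θ G (b, y) = co Θ F (b, y) := by
    rintro b ⟨hb, hbp⟩ y
    rw [hco, hχ0 b hb hbp, zero_mul, mul_zero, hψ.zero]
  have hm0 : 0 < minimalPeriod g p := minimalPeriod_pos_of_mem_periodicPts hp
  have hret' : ret (co Θ G) (minimalPeriod g p) p = fun y => R (ψ (s * ρ y) y) := by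
    funext y
    obtain ⟨m, hm⟩ : ∃ m, minimalPeriod g p = m + 1 := ⟨minimalPeriod g p - 1, by omega⟩
    show ((co Θ G)^[minimalPeriod g p] (p, y)).2 = _
    rw [← hret]
    show _ = ((co Θ F)^[minimalPeriod g p] (p, ψ (s * ρ y) y)).2
    rw [hm, iterate_succ_apply, iterate_succ_apply]
    have h1 : co Θ G (p, y) = co Θ F (p, ψ (s * ρ y) y) := by
      rw [hco, hχ1, one_mul]
    rw [h1]
    have h2 : (co Θ F (p, ψ (s * ρ y) y)).1 = g p := co_fst hF _
    obtain ⟨y', hy'⟩ : ∃ y', co Θ F (p, ψ (s * ρ y) y) = (g p, y') := ⟨_, Prod.ext h2 rfl⟩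
    rw [hy', co_iter_of hF hne m (g p) y']
    intro i hi
    rw [← iterate_succ_apply]
    refine ⟨per_iter hp _, fun h3 => ?_⟩
    exact not_isPeriodicPt_of_pos_of_lt_minimalPeriod (by omega)
      (by omega : i + 1 < minimalPeriod g p) h3
  obtain ⟨G', hG'U, hG', h2, h3⟩ := hOO G hGU hGp hret'
  refine ⟨G', hG'U, hG', h2, fun p' hp' hnp m => ?_⟩
  rw [h3 p' hp' hnp m]
  funext y
  show ((co Θ G)^[m] (p', y)).2 = ((co Θ F)^[m] (p', y)).2
  rw [co_iter_of hF hne m p' y fun i _ => ⟨per_iter hp' i, hnp i⟩]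

/-- all orbits -/
theorem all_orbits' (Θ : ProdDiff n d l N B K) {g : B → B} (hgi : Injective g)
    (hg : (periodicPts g).Finite)
    (U : Set (DiffM n N r)) {F : DiffM n N r} (hFU : F ∈ U)
    (hF : ∀ x, proj Θ (F x) = g (proj Θ x))
    (hP : ∀ p ∈ periodicPts g, OO Θ g U p (ret (co Θ F) (minimalPeriod g p) p)) :
    ∃ G ∈ U, (∀ x, proj Θ (G x) = g (proj Θ x)) ∧
      ∀ p ∈ periodicPts g, GradLike (ret (co Θ G) (minimalPeriod g p) p) := by
  classical
  have key : ∀ S : Finset B, (S : Set B) ⊆ periodicPts g →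
      ∃ G ∈ U, (∀ x, proj Θ (G x) = g (proj Θ x)) ∧
        (∀ p ∈ S, GradLike (ret (co Θ G) (minimalPeriod g p) p)) ∧
        ∀ p ∈ periodicPts g, GradLike (ret (co Θ G) (minimalPeriod g p) p) ∨
          ret (co Θ G) (minimalPeriod g p) p = ret (co Θ F) (minimalPeriod g p) p := by
    intro S
    induction S using Finset.induction_on with
    | empty => exact fun _ => ⟨F, hFU, hF, by simp, fun p _ => Or.inr rfl⟩
    | insert p S hpS ih =>
      intro hS
      obtain ⟨G, hGU, hG, h1, h2⟩ := ih fun x hx => hS (Finset.mem_insert_of_mem hx)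
      have hp : p ∈ periodicPts g := hS (Finset.mem_insert_self p S)
      rcases h2 p hp with h3 | h3
      · refine ⟨G, hGU, hG, fun q hq => ?_, h2⟩
        rcases Finset.mem_insert.mp hq with rfl | hq
        · exact h3
        · exact h1 q hq
      · obtain ⟨G', hGU', hG', h4, h5⟩ := hP p hp G hGU hG h3
        have h6 : ∀ q ∈ periodicPts g, (∃ i, g^[i] q = p) →
            GradLike (ret (co Θ G') (minimalPeriod g q) q) := by
          rintro q hq ⟨i, hi⟩
          have h7 : minimalPeriod g p = minimalPeriod g q := by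
            rw [← hi]
            exact minimalPeriod_apply_iterate hq i
          have hm0 : 0 < minimalPeriod g q := minimalPeriod_pos_of_mem_periodicPts hq
          have h8 : g^[i * minimalPeriod g q - i] p = q := by
            have h9 : i ≤ i * minimalPeriod g q := Nat.le_mul_of_pos_right i hm0
            rw [← hi, ← iterate_add_apply, Nat.sub_add_cancel h9, mul_comm]
            exact ((isPeriodicPt_minimalPeriod g q).mul_const i).eq
          have h10 := gradLike_ret_iter (co Θ G') hgi (co_fst hG') (isPeriodicPt_minimalPeriod g p)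
            h4 (i * minimalPeriod g q - i)
          rw [h8, h7] at h10
          exact h10
        refine ⟨G', hGU', hG', fun q hq => ?_, fun q hq => ?_⟩
        · have hqp : q ∈ periodicPts g := hS hq
          by_cases h7 : ∃ i, g^[i] q = p
          · exact h6 q hqp h7
          · push Not at h7
            rw [h5 q hqp h7]
            rcases Finset.mem_insert.mp hq with rfl | hq
            · exact (h7 0 rfl).elim
            · exact h1 q hq
        · by_cases h7 : ∃ i, g^[i] q = p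
          · exact Or.inl (h6 q hq h7)
          · push Not at h7
            rw [h5 q hq h7]
            exact h2 q hq
  obtain ⟨G, hGU, hG, h1, -⟩ := key hg.toFinset (by simp)
  exact ⟨G, hGU, hG, fun p hp => h1 p (by simpa using hp)⟩

/-- **Skew products over limits of gradient-like diffeomorphisms.** -/
theorem near_gradLike' [CompactSpace K] [T2Space K] (Θ : ProdDiff n d l N B K)
    {F : DiffM n N r} {f : DiffM d B r} (hcov : ∀ x, proj Θ (F x) = f (proj Θ x))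
    {𝒢 : Set (K → K)} (hG : ∀ R ∈ 𝒢, ∀ R' ∈ 𝒢, R ∘ R' ∈ 𝒢) (hF : ∀ b, fibreMap Θ F b ∈ 𝒢)
    (hP : ∀ (g : B → B), (periodicPts g).Finite → ∀ U : Set (DiffM n N r),
      IsOpen[strongTop n N r] U → ∀ p ∈ periodicPts g, ∀ R ∈ 𝒢, OO Θ g U p R)
    (hf : Near f fun g => GradLike g) : Near F fun G => GradLike G := by
  intro U hU hFU
  obtain ⟨U', hU', hfU', hl⟩ := exists_open Θ F f hU hFU
  obtain ⟨g, hg, hgg⟩ := hf U' hU' hfU'
  obtain ⟨G, hGU, hGp, h1⟩ := all_orbits' Θ g.injective hgg.1 U (hl g hg)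
    (proj_lf hcov g) fun p hp => hP g hgg.1 U hU p hp _ (ret_mem Θ hcov g hG hF _
      (minimalPeriod_pos_of_mem_periodicPts hp) p)
  refine ⟨G, hGU, ?_⟩
  have hmB : TopologicalSpace.MetrizableSpace B := exists_metric d B
  have hmK : TopologicalSpace.MetrizableSpace K := exists_metric l K
  letI : MetricSpace B := TopologicalSpace.metrizableSpaceMetric B
  letI : MetricSpace K := TopologicalSpace.metrizableSpaceMetric K
  have h2 : GradLike (co Θ G) := gradLike_skew (co Θ G).continuous g.continuous (co_fst hGp)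
    hgg h1
  refine h2.conj Θ.toHomeomorph fun z => ?_
  show Θ (Θ.symm (G (Θ z))) = G (Θ z)
  exact Θ.apply_symm_apply _

end Pool.Agent.H66.GL
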