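import Pool.Agent.H66.GL.Pert

/-!
# Skew products over limits of gradient-like diffeomorphisms
-/

set_option autoImplicit false
set_option linter.unusedSectionVars false

open scoped Manifold ContDiff Topology
open Set Filter Topology Function MeasureTheory

universe u v w

namespace Pool.Agent.H66.GL

open Pool.Agent.H718R2.G Pool.Agent.W564.SC Pool.Agent.W5h32.TX Pool.Agent.TH80.OMS
open Pool.Agent.W5h32.PT (Near)
open Pool.Agent.R773.TE (ProdDiff proj lf lf_apply exists_open liftD_apply)
open Pool.Agent.H728R2.FA (omegaLim FiniteAttractors)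
open Pool.Agent.Y504.CO (exists_metric)

variable {n d l : ℕ} {N : Type u} [TopologicalSpace N] [T2Space N] [CompactSpace N]
  [ChartedSpace (V n) N] [IsManifold (𝓡 n) ∞ N]
  {B : Type v} [TopologicalSpace B] [T2Space B] [CompactSpace B] [ChartedSpace (V d) B]
  [IsManifold (𝓡 d) ∞ B]
  {K : Type w} [TopologicalSpace K] [ChartedSpace (V l) K] [IsManifold (𝓡 l) ∞ K] {r : ℕ∞}

/-- all orbits -/
theorem all_orbits (Θ : ProdDiff n d l N B K) (hr : 1 ≤ r) {g : B → B} (hgi : Injective g)
    (hg : (periodicPts g).Finite)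
    (U : Set (DiffM n N r)) (hU : IsOpen[strongTop n N r] U) {F : DiffM n N r} (hFU : F ∈ U)
    (hF : ∀ x, proj Θ (F x) = g (proj Θ x))
    (hP : ∀ p ∈ periodicPts g, Pb l (ret (co Θ F) (minimalPeriod g p) p)) :
    ∃ G ∈ U, (∀ x, proj Θ (G x) = g (proj Θ x)) ∧
      ∀ p ∈ periodicPts g, GradLike (ret (co Θ G) (minimalPeriod g p) p) := by
  classical
  have key : ∀ S : Finset B, (S : Set B) ⊆ periodicPts g →
      ∃ G ∈ U, (∀ x, proj Θ (G x) = g (proj Θ x)) ∧
        (∀ p ∈ S, GradLike (ret (co Θ G) (minimalPeriod g p) p)) ∧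
        ∀ p ∈ periodicPts g, GradLike (ret (co Θ G) (minimalPeriod g p) p) ∨
          ret (co Θ G) (minimalPeriod g p) p = ret (co Θ F) (minimalPeriod g p) p := by
    intro S
    induction S using Finset.induction_on with
    | empty => exact fun _ => ⟨F, hFU, hF, by simp, fun p _ => Or.inr rfl⟩
    | insert p S hpS ih =>
      intro hS
      obtain ⟨G, hGU, hG, h1, h2⟩ := ih fun x hx => hS (Finset.mem_insert_of_mem hx)
      have hp : p ∈ periodicPts g := hS (Finset.mem_insert_self p S)
      rcases h2 p hp with h3 | h3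
      · refine ⟨G, hGU, hG, fun q hq => ?_, h2⟩
        rcases Finset.mem_insert.mp hq with rfl | hq
        · exact h3
        · exact h1 q hq
      · obtain ⟨G', hGU', hG', h4, h5⟩ := one_orbit Θ hr hg U hU hp (h3 ▸ hP p hp) G hGU hG rfl
        have h6 : ∀ q ∈ periodicPts g, (∃ i, g^[i] q = p) →
            GradLike (ret (co Θ G') (minimalPeriod g q) q) := by
          rintro q hq ⟨i, hi⟩
          -- `q` is in the forward orbit of `p`
          have h7 : minimalPeriod g p = minimalPeriod g q := by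
            rw [← hi]
            exact minimalPeriod_apply_iterate hq i
          have hm0 : 0 < minimalPeriod g q := minimalPeriod_pos_of_mem_periodicPts hq
          have h8 : g^[i * minimalPeriod g q - i] p = q := by
            have h9 : i ≤ i * minimalPeriod g q := Nat.le_mul_of_pos_right i hm0
            rw [← hi, ← iterate_add_apply, Nat.sub_add_cancel h9, mul_comm]
            exact ((isPeriodicPt_minimalPeriod g q).mul_const i).eq
          have h10 := gradLike_ret_iter (co Θ G') hgi (co_fst hG') (isPeriodicPt_minimalPeriod g p)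
            h4 (i * minimalPeriod g q - i)
          rw [h8, h7] at h10
          exact h10
        refine ⟨G', hGU', hG', fun q hq => ?_, fun q hq => ?_⟩
        · have hqp : q ∈ periodicPts g := hS hq
          by_cases h7 : ∃ i, g^[i] q = p
          · exact h6 q hqp h7
          · push Not at h7
            rw [h5 q hqp h7]
            rcases Finset.mem_insert.mp hq with rfl | hq
            · exact (h7 0 rfl).elim
            · exact h1 q hq
        · by_cases h7 : ∃ i, g^[i] q = p
          · exact Or.inl (h6 q hq h7)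
          · push Not at h7
            rw [h5 q hq h7]
            exact h2 q hq
  obtain ⟨G, hGU, hG, h1, -⟩ := key hg.toFinset (by simp)
  exact ⟨G, hGU, hG, fun p hp => h1 p (by simpa using hp)⟩

/-- the fibre map over `b` -/
noncomputable def fibreMap (Θ : ProdDiff n d l N B K) (F : DiffM n N r) (b : B) (y : K) : K :=
  fib Θ (F (fwd Θ (b, y)))

theorem co_snd (Θ : ProdDiff n d l N B K) (F : DiffM n N r) (z : B × K) :
    (co Θ F z).2 = fibreMap Θ F z.1 z.2 := rfl

/-- the return maps of the lifted perturbations are compositions of fibre maps -/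
theorem ret_mem (Θ : ProdDiff n d l N B K) {F : DiffM n N r} {f : DiffM d B r}
    (hcov : ∀ x, proj Θ (F x) = f (proj Θ x)) (g : DiffM d B r) {𝒢 : Set (K → K)}
    (hG : ∀ R ∈ 𝒢, ∀ R' ∈ 𝒢, R ∘ R' ∈ 𝒢) (hF : ∀ b, fibreMap Θ F b ∈ 𝒢) (m : ℕ) (hm : 1 ≤ m)
    (p : B) : ret (co Θ (lf Θ F f g)) m p ∈ 𝒢 := by
  have hproj := proj_lf hcov g
  have hfib : ∀ z : B × K, (co Θ (lf Θ F f g) z).2 = fibreMap Θ F z.1 z.2 := by
    intro z
    have h1 : co Θ (lf Θ F f g) z = Θ.symm (lf Θ F f g (Θ z)) := rfl
    rw [h1, lf_apply, eq_Θ (Θ := Θ) (F (Θ z)), liftD_apply, Θ.symm_apply_apply]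
    rfl
  induction m, hm using Nat.le_induction with
  | base =>
    have : ret (co Θ (lf Θ F f g)) 1 p = fibreMap Θ F p := by
      funext y
      exact hfib (p, y)
    rw [this]
    exact hF p
  | succ m hm ih =>
    have : ret (co Θ (lf Θ F f g)) (m + 1) p =
        fibreMap Θ F (g^[m] p) ∘ ret (co Θ (lf Θ F f g)) m p := by
      funext y
      show ((co Θ (lf Θ F f g))^[m + 1] (p, y)).2 = _
      rw [iterate_succ_apply', hfib, fst_iter (co_fst hproj)]
      rfl
    rw [this]
    exact hG _ (hF _) _ ih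

/-- **Skew products over limits of gradient-like diffeomorphisms.** -/
theorem near_gradLike [CompactSpace K] [T2Space K] (Θ : ProdDiff n d l N B K) (hr : 1 ≤ r)
    {F : DiffM n N r} {f : DiffM d B r} (hcov : ∀ x, proj Θ (F x) = f (proj Θ x))
    {𝒢 : Set (K → K)} (hG : ∀ R ∈ 𝒢, ∀ R' ∈ 𝒢, R ∘ R' ∈ 𝒢) (hF : ∀ b, fibreMap Θ F b ∈ 𝒢)
    (hP : ∀ R ∈ 𝒢, Pb l R) (hf : Near f fun g => GradLike g) : Near F fun G => GradLike G := by
  intro U hU hFU
  obtain ⟨U', hU', hfU', hl⟩ := exists_open Θ F f hU hFU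
  obtain ⟨g, hg, hgg⟩ := hf U' hU' hfU'
  obtain ⟨G, hGU, hGp, h1⟩ := all_orbits Θ hr g.injective hgg.1 U hU (hl g hg)
    (proj_lf hcov g) fun p hp => hP _ (ret_mem Θ hcov g hG hF _
      (minimalPeriod_pos_of_mem_periodicPts hp) p)
  refine ⟨G, hGU, ?_⟩
  have hmB : TopologicalSpace.MetrizableSpace B := exists_metric d B
  have hmK : TopologicalSpace.MetrizableSpace K := exists_metric l K
  letI : MetricSpace B := TopologicalSpace.metrizableSpaceMetric B
  letI : MetricSpace K := TopologicalSpace.metrizableSpaceMetric K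
  have h2 : GradLike (co Θ G) := gradLike_skew (co Θ G).continuous g.continuous (co_fst hGp)
    hgg h1
  refine h2.conj Θ.toHomeomorph fun z => ?_
  show Θ (Θ.symm (G (Θ z))) = G (Θ z)
  exact Θ.apply_symm_apply _

/-- gradient-like homeomorphisms are tame -/
theorem GradLike.tame {X : Type*} [TopologicalSpace X] [CompactSpace X]
    [TopologicalSpace.MetrizableSpace X] {g : X → X} (hgc : Continuous g) (h : GradLike g) :
    Tame g := by
  letI : MetricSpace X := TopologicalSpace.metrizableSpaceMetric X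
  have : Fintype (periodicPts g) := h.1.fintype
  let e := Fintype.equivFin (periodicPts g)
  have hmem : ∀ (p : X), p ∈ periodicPts g → ∀ i, g^[i] p ∈ periodicPts g := fun p hp i => per_iter hp i
  have hfin : ∀ p ∈ periodicPts g, (range fun k : ℕ => g^[k] p).Finite := fun p hp =>
    h.1.subset (by rintro _ ⟨k, rfl⟩; exact hmem p hp k)
  refine ⟨_, fun i => range fun k : ℕ => g^[k] (e.symm i : X), fun i => ?_, fun i => ?_, fun i => ?_,
    fun x => ?_⟩
  · exact (hfin _ (e.symm i).2).isClosed
  · obtain ⟨m, hm, hp⟩ := (e.symm i).2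
    apply Subset.antisymm
    · rintro _ ⟨_, ⟨k, rfl⟩, rfl⟩
      exact ⟨k + 1, iterate_succ_apply' g k _⟩
    · rintro _ ⟨k, rfl⟩
      refine ⟨g^[k + m - 1] (e.symm i : X), ⟨k + m - 1, rfl⟩, ?_⟩
      rw [← iterate_succ_apply' g]
      show g^[k + m - 1 + 1] (e.symm i : X) = g^[k] (e.symm i : X)
      rw [show k + m - 1 + 1 = k + m by omega, iterate_add_apply, hp.eq]
  · exact ⟨e.symm i, ⟨0, rfl⟩, subset_closure⟩
  · obtain ⟨p, hp, hlim⟩ := h.asymp hgc (x := fun k => g^[k] x) (by
      have : (fun k => dist (g (g^[k] x)) (g^[k + 1] x)) = fun _ => (0 : ℝ) := by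
        funext k
        rw [iterate_succ_apply', dist_self]
      rw [this]
      exact tendsto_const_nhds)
    refine ⟨e ⟨p, hp⟩, ?_⟩
    show omegaLim g x ⊆ range fun k : ℕ => g^[k] (e.symm (e ⟨p, hp⟩) : X)
    rw [e.symm_apply_apply]
    intro q hq
    rw [← (hfin p hp).isClosed.closure_eq, Metric.mem_closure_iff]
    intro ε hε
    obtain ⟨M, hM⟩ := Metric.tendsto_atTop.mp hlim (ε / 2) (by positivity)
    obtain ⟨k, hk, hk'⟩ := hq _ (Metric.ball_mem_nhds q (show (0:ℝ) < ε / 2 by positivity)) M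
    refine ⟨_, ⟨k, rfl⟩, ?_⟩
    have h1 := hM k hk
    rw [Real.dist_0_eq_abs, abs_of_nonneg dist_nonneg] at h1
    calc dist q (g^[k] p) ≤ dist q (g^[k] x) + dist (g^[k] x) (g^[k] p) := dist_triangle _ _ _
      _ < ε / 2 + ε / 2 := add_lt_add (by rw [dist_comm]; exact hk') h1
      _ = ε := by ring

end Pool.Agent.H66.GL
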