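import Pool.Agent.H66.GL.Ver

/-!
# Perturbation of the return maps
-/

set_option autoImplicit false
set_option linter.unusedSectionVars false

open scoped Manifold ContDiff Topology
open Set Filter Topology Function

universe u v w

namespace Pool.Agent.H66.GL

open Pool.Agent.H718R2.G Pool.Agent.W564.SC Pool.Agent.W5h32.TX
open Pool.Agent.R773.TE (ProdDiff proj lf lf_apply exists_open)

/-- Maps of `K` which become gradient-like under arbitrarily small perturbations by smooth actions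
of `ℝ^j` (finitely many successive ones). -/
inductive Pb (l : ℕ) {K : Type w} [TopologicalSpace K] [ChartedSpace (V l) K] : (K → K) → Prop
  | grad (R : K → K) : GradLike R → Pb l R
  | pert (R : K → K) (j : ℕ) (a : (Fin j → ℝ) → K → K) (ha : SAct l j a)
      (s : ℝ → (Fin j → ℝ)) (hs : ∀ κ : ℝ, 0 < κ → ‖s κ‖ < κ)
      (h : ∀ κ : ℝ, 0 < κ → Pb l (a (s κ) ∘ R)) : Pb l R

theorem exists_chi {d : ℕ} {B : Type v} [TopologicalSpace B] [T2Space B] [CompactSpace B]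
    [ChartedSpace (V d) B] [IsManifold (𝓡 d) ∞ B] {P : Set B} (hP : P.Finite) (p : B) :
    ∃ χ : B → ℝ, ContMDiff (𝓡 d) 𝓘(ℝ, ℝ) ∞ χ ∧ χ p = 1 ∧ ∀ b ∈ P, b ≠ p → χ b = 0 := by
  have h1 : IsClosed (P \ {p}) := (hP.subset sdiff_subset).isClosed
  have h2 : IsClosed ({p} : Set B) := isClosed_singleton
  have h3 : Disjoint (P \ {p}) {p} := disjoint_sdiff_left
  obtain ⟨f, hf0, hf1, -⟩ := exists_contMDiffMap_zero_one_of_isClosed (n := ⊤) (𝓡 d) h1 h2 h3
  refine ⟨f, f.contMDiff, hf1 (mem_singleton p), fun b hb hne => hf0 ⟨hb, hne⟩⟩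

variable {n d l : ℕ} {N : Type u} [TopologicalSpace N] [T2Space N] [CompactSpace N]
  [ChartedSpace (V n) N] [IsManifold (𝓡 n) ∞ N]
  {B : Type v} [TopologicalSpace B] [T2Space B] [CompactSpace B] [ChartedSpace (V d) B]
  [IsManifold (𝓡 d) ∞ B]
  {K : Type w} [TopologicalSpace K] [ChartedSpace (V l) K] [IsManifold (𝓡 l) ∞ K] {r : ℕ∞}
  {j : ℕ} {a : (Fin j → ℝ) → K → K}

theorem per_iter {X : Type*} {g : X → X} {p : X} (hp : p ∈ periodicPts g) (i : ℕ) :
    g^[i] p ∈ periodicPts g := by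
  obtain ⟨m, hm, h⟩ := hp
  exact ⟨m, hm, h.apply_iterate i⟩

/-- orbits which avoid the fibre over `p` are not changed -/
theorem iter_vert {Θ : ProdDiff n d l N B K} {ha : SAct l j a} {χ : B → ℝ}
    {hχ : ContMDiff (𝓡 d) 𝓘(ℝ, ℝ) ∞ χ} {F : DiffM n N r} {g : B → B}
    (h : ∀ x, proj Θ (F x) = g (proj Θ x)) {p : B}
    (hχ0 : ∀ b ∈ periodicPts g, b ≠ p → χ b = 0) (s : Fin j → ℝ) {p' : B}
    (hp' : p' ∈ periodicPts g) (m : ℕ) (hne : ∀ i, 1 ≤ i → i ≤ m → g^[i] p' ≠ p) (y : K) :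
    (co Θ (F.trans (vertD Θ ha hχ r s)))^[m] (p', y) = (co Θ F)^[m] (p', y) := by
  induction m with
  | zero => rfl
  | succ m ih =>
    rw [iterate_succ_apply', ih fun i h1 h2 => hne i h1 (by omega), co_vert, iterate_succ_apply']
    have h1 : (co Θ F ((co Θ F)^[m] (p', y))).1 = g^[m + 1] p' := by
      rw [co_fst h, fst_iter (co_fst h), iterate_succ_apply']
    have h2 : χ (g^[m + 1] p') = 0 := hχ0 _ (per_iter hp' _) (hne _ (by omega) le_rfl)
    rw [h1, h2, zero_smul, ha.zero, ← h1]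

/-- the return map at `p` -/
theorem ret_vert {Θ : ProdDiff n d l N B K} {ha : SAct l j a} {χ : B → ℝ}
    {hχ : ContMDiff (𝓡 d) 𝓘(ℝ, ℝ) ∞ χ} {F : DiffM n N r} {g : B → B}
    (h : ∀ x, proj Θ (F x) = g (proj Θ x)) {p : B} (hp : p ∈ periodicPts g) (hχ1 : χ p = 1)
    (hχ0 : ∀ b ∈ periodicPts g, b ≠ p → χ b = 0) (s : Fin j → ℝ) :
    ret (co Θ (F.trans (vertD Θ ha hχ r s))) (minimalPeriod g p) p =
      a s ∘ ret (co Θ F) (minimalPeriod g p) p := by
  funext y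
  have hm0 : 0 < minimalPeriod g p := minimalPeriod_pos_of_mem_periodicPts hp
  obtain ⟨m, hm⟩ : ∃ m, minimalPeriod g p = m + 1 := ⟨minimalPeriod g p - 1, by omega⟩
  have hne : ∀ i, 1 ≤ i → i ≤ m → g^[i] p ≠ p := by
    intro i h1 h2 h3
    exact not_isPeriodicPt_of_pos_of_lt_minimalPeriod (by omega) (by omega : i < minimalPeriod g p) h3
  have hmp : g^[m + 1] p = p := by
    rw [← hm]
    exact isPeriodicPt_minimalPeriod g p
  show (_^[minimalPeriod g p] (p, y)).2 = a s ((co Θ F)^[minimalPeriod g p] (p, y)).2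
  rw [hm, iterate_succ_apply', iter_vert h hχ0 s hp m hne, co_vert, iterate_succ_apply']
  have h1 : (co Θ F ((co Θ F)^[m] (p, y))).1 = p := by
    rw [co_fst h, fst_iter (co_fst h), ← iterate_succ_apply' g]
    exact hmp
  show a (χ (co Θ F ((co Θ F)^[m] (p, y))).1 • s) _ = _
  rw [h1, hχ1, one_smul]

theorem ret_vert_other {Θ : ProdDiff n d l N B K} {ha : SAct l j a} {χ : B → ℝ}
    {hχ : ContMDiff (𝓡 d) 𝓘(ℝ, ℝ) ∞ χ} {F : DiffM n N r} {g : B → B}
    (h : ∀ x, proj Θ (F x) = g (proj Θ x)) {p : B}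
    (hχ0 : ∀ b ∈ periodicPts g, b ≠ p → χ b = 0) (s : Fin j → ℝ) {p' : B}
    (hp' : p' ∈ periodicPts g) (hne : ∀ i, g^[i] p' ≠ p) (m : ℕ) :
    ret (co Θ (F.trans (vertD Θ ha hχ r s))) m p' = ret (co Θ F) m p' := by
  funext y
  show (_^[m] (p', y)).2 = ((co Θ F)^[m] (p', y)).2
  rw [iter_vert h hχ0 s hp' m fun i _ _ => hne i]

/-- one orbit -/
theorem one_orbit (Θ : ProdDiff n d l N B K) (hr : 1 ≤ r) {g : B → B} (hg : (periodicPts g).Finite)
    (U : Set (DiffM n N r)) (hU : IsOpen[strongTop n N r] U) {p : B} (hp : p ∈ periodicPts g)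
    {R : K → K} (hR : Pb l R) : ∀ F ∈ U, (∀ x, proj Θ (F x) = g (proj Θ x)) →
      ret (co Θ F) (minimalPeriod g p) p = R →
      ∃ G ∈ U, (∀ x, proj Θ (G x) = g (proj Θ x)) ∧
        GradLike (ret (co Θ G) (minimalPeriod g p) p) ∧
        ∀ p' ∈ periodicPts g, (∀ i, g^[i] p' ≠ p) → ∀ m,
          ret (co Θ G) m p' = ret (co Θ F) m p' := by
  induction hR with
  | grad R hR =>
    intro F hFU hF hret
    exact ⟨F, hFU, hF, by rw [hret]; exact hR, fun _ _ _ _ => rfl⟩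
  | pert R j a ha s hs h ih =>
    intro F hFU hF hret
    obtain ⟨χ, hχ, hχ1, hχ0⟩ := exists_chi (d := d) hg p
    obtain ⟨κ, hκ, hmem⟩ := vert_mem Θ ha hχ hr F U hU hFU
    have h1 := ret_vert (ha := ha) (hχ := hχ) hF hp hχ1 hχ0 (s κ)
    rw [hret] at h1
    obtain ⟨G, hGU, hG, h2, h3⟩ := ih κ hκ (F.trans (vertD Θ ha hχ r (s κ))) (hmem _ (hs κ hκ))
      (fun x => proj_trans_vert hF (s κ) x) h1
    refine ⟨G, hGU, hG, h2, fun p' hp' hne m => ?_⟩
    rw [h3 p' hp' hne m, ret_vert_other hF hχ0 (s κ) hp' hne m]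

end Pool.Agent.H66.GL
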