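import Pool.Agent.H66.GL.Top

/-!
# Skew products of gradient-like maps
-/

set_option autoImplicit false
set_option linter.unusedSectionVars false

open Set Filter Topology Function Uniformity

namespace Pool.Agent.H66.GL

section conj

variable {X Y : Type*} [TopologicalSpace X] [TopologicalSpace Y]

theorem per_conj {g : X → X} {g' : Y → Y} (h : X ≃ Y) (hc : ∀ x, h (g x) = g' (h x)) (x : X) :
    h x ∈ periodicPts g' ↔ x ∈ periodicPts g := by
  have h1 : ∀ (n : ℕ) (x : X), h (g^[n] x) = g'^[n] (h x) := by
    intro n
    induction n with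
    | zero => intro x; rfl
    | succ n ih => intro x; rw [iterate_succ_apply', hc, ih, iterate_succ_apply']
  constructor
  · rintro ⟨n, hn, hp⟩
    refine ⟨n, hn, ?_⟩
    have h2 : g'^[n] (h x) = h x := hp
    rw [← h1] at h2
    exact h.injective h2
  · rintro ⟨n, hn, hp⟩
    refine ⟨n, hn, ?_⟩
    show g'^[n] (h x) = h x
    rw [← h1, hp.eq]

/-- conjugacy invariance -/
theorem GradLike.conj {g : X → X} {g' : Y → Y} (h : X ≃ₜ Y) (hc : ∀ x, h (g x) = g' (h x))
    (hg : GradLike g) : GradLike g' := by
  have hper : ∀ x, h x ∈ periodicPts g' ↔ x ∈ periodicPts g := fun x => per_conj h.toEquiv hc x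
  have hc' : ∀ y, h.symm (g' y) = g (h.symm y) := by
    intro y
    apply h.injective
    rw [hc, h.apply_symm_apply, h.apply_symm_apply]
  constructor
  · have h1 : periodicPts g' = h '' periodicPts g := by
      ext y
      constructor
      · intro hy
        refine ⟨h.symm y, ?_, h.apply_symm_apply y⟩
        rw [← hper, h.apply_symm_apply]
        exact hy
      · rintro ⟨x, hx, rfl⟩
        exact (hper x).mpr hx
    rw [h1]
    exact hg.1.image h
  · intro y hy z hz
    have h1 : AsymPO g (fun n => h.symm (y n)) := by
      have h2 : Tendsto (Prod.map h.symm h.symm) (𝓝ˢ (diagonal Y)) (𝓝ˢ (diagonal X)) := by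
        refine (h.symm.continuous.prodMap h.symm.continuous).tendsto_nhdsSet ?_
        rintro ⟨a, b⟩ hab
        have : a = b := hab
        subst this
        exact rfl
      have h3 := h2.comp hy
      refine h3.congr fun n => ?_
      show (h.symm (g' (y n)), h.symm (y (n + 1))) = _
      rw [hc']
    have h2 : MapClusterPt (h.symm z) atTop (fun n => h.symm (y n)) :=
      hz.continuousAt_comp h.symm.continuous.continuousAt
    have h3 := hg.2 _ h1 _ h2
    rw [← hper, h.apply_symm_apply] at h3
    exact h3

end conj

section skew0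

variable {B K : Type*} {G : B × K → B × K} {g : B → B}

theorem fst_iter (h : ∀ z, (G z).1 = g z.1) (n : ℕ) (z : B × K) : (G^[n] z).1 = g^[n] z.1 := by
  induction n with
  | zero => rfl
  | succ n ih => rw [iterate_succ_apply', h, ih, iterate_succ_apply']

/-- the return map of the fibre over `p` for the time `m` -/
def ret (G : B × K → B × K) (m : ℕ) (p : B) (y : K) : K := (G^[m] (p, y)).2

theorem ret_iter (h : ∀ z, (G z).1 = g z.1) {m : ℕ} {p : B} (hp : g^[m] p = p) (i : ℕ) (y : K) :
    G^[m * i] (p, y) = (p, (ret G m p)^[i] y) := by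
  induction i with
  | zero => rfl
  | succ i ih =>
    rw [Nat.mul_succ, Nat.add_comm, iterate_add_apply, ih, iterate_succ_apply']
    ext
    · rw [fst_iter h]; exact hp
    · rfl

end skew0

section skew

variable {B K : Type*} [MetricSpace B] [CompactSpace B] [MetricSpace K] [CompactSpace K]
  {G : B × K → B × K} {g : B → B}

/-- cluster points along residue classes -/
theorem cluster_mod {X : Type*} [TopologicalSpace X] {x : ℕ → X} {z : X}
    (hz : MapClusterPt z atTop x) {m : ℕ} (hm : 0 < m) :
    ∃ j < m, MapClusterPt z atTop (fun a => x (m * a + j)) := by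
  by_contra hcon
  push Not at hcon
  have h1 : ∀ j, j < m → ∃ U ∈ 𝓝 z, ∀ᶠ a in atTop, x (m * a + j) ∉ U := by
    intro j hj
    have := hcon j hj
    rw [mapClusterPt_iff_frequently] at this
    push Not at this
    obtain ⟨U, hU, h2⟩ := this
    exact ⟨U, hU, by simpa using h2⟩
  choose! U hU hev using h1
  have h2 : (⋂ j ∈ Finset.range m, U j) ∈ 𝓝 z := by
    rw [biInter_finset_mem]
    exact fun j hj => hU j (Finset.mem_range.mp hj)
  have h3 : ∀ j, ∃ A, j < m → ∀ a ≥ A, x (m * a + j) ∉ U j := by
    intro j
    by_cases hj : j < m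
    · obtain ⟨A, hA⟩ := eventually_atTop.mp (hev j hj)
      exact ⟨A, fun _ => hA⟩
    · exact ⟨0, fun h => (hj h).elim⟩
  choose A hA using h3
  rw [mapClusterPt_iff_frequently] at hz
  obtain ⟨n, hn, hnU⟩ := frequently_atTop.mp (hz _ h2) (m * ((Finset.range m).sup A + 1))
  have h4 : n % m < m := Nat.mod_lt n hm
  have h5 : (Finset.range m).sup A + 1 ≤ n / m := by
    rw [Nat.le_div_iff_mul_le hm, mul_comm]
    exact hn
  have h6 : A (n % m) ≤ (Finset.range m).sup A := Finset.le_sup (Finset.mem_range.mpr h4)
  have h7 := hA (n % m) h4 (n / m) (by omega)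
  rw [Nat.div_add_mod] at h7
  simp only [mem_iInter, Finset.mem_range] at hnU
  exact h7 (hnU _ h4)

/-- **Skew products.** -/
theorem gradLike_skew (hG : Continuous G) (hg : Continuous g) (h : ∀ z, (G z).1 = g z.1)
    (hB : GradLike g) (hK : ∀ p ∈ periodicPts g, GradLike (ret G (minimalPeriod g p) p)) :
    GradLike G := by
  constructor
  · have hsub : periodicPts G ⊆ ⋃ p ∈ periodicPts g,
        (fun y => ((p, y) : B × K)) '' periodicPts (ret G (minimalPeriod g p) p) := by
      rintro ⟨p, y⟩ ⟨n, hn, hy⟩
      have h1 : g^[n] p = p := by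
        have := fst_iter h n (p, y)
        rw [hy.eq] at this
        exact this.symm
      have hp : p ∈ periodicPts g := ⟨n, hn, h1⟩
      refine mem_biUnion hp ⟨y, ?_, rfl⟩
      have hm : g^[minimalPeriod g p] p = p := isPeriodicPt_minimalPeriod g p
      refine ⟨n, hn, ?_⟩
      have h2 := ret_iter h hm n y
      have h3 : G^[minimalPeriod g p * n] (p, y) = (p, y) := by
        rw [mul_comm]
        exact (hy.mul_const _).eq
      rw [h3] at h2
      exact (congrArg Prod.snd h2).symm
    exact (hB.1.biUnion fun p hp => (hK p hp).1.image _).subset hsub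
  · intro x hx z hz
    rw [asymPO_iff] at hx
    have hx1 : Tendsto (fun n => dist (g (x n).1) (x (n + 1)).1) atTop (𝓝 0) := by
      refine squeeze_zero (fun n => dist_nonneg) (fun n => ?_) hx
      rw [← h]
      exact le_max_left _ _
    obtain ⟨p, hp, has⟩ := hB.asymp hg (x := fun n => (x n).1) hx1
    set m := minimalPeriod g p with hm
    have hm0 : 0 < m := minimalPeriod_pos_of_mem_periodicPts hp
    have hmp : g^[m] p = p := isPeriodicPt_minimalPeriod g p
    obtain ⟨j, hj, hzj⟩ := cluster_mod hz hm0
    set pj := g^[j] p with hpj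
    have hpjm : minimalPeriod g pj = m := minimalPeriod_apply_iterate hp j
    have hpjp : pj ∈ periodicPts g := by
      obtain ⟨n, hn, h1⟩ := hp
      exact ⟨n, hn, h1.apply_iterate j⟩
    have hmpj : g^[m] pj = pj := by
      rw [← hpjm]
      exact isPeriodicPt_minimalPeriod g pj
    -- the base points converge
    have hsub : Tendsto (fun a : ℕ => m * a + j) atTop atTop := by
      refine tendsto_atTop_mono (fun a => ?_) tendsto_id
      have : a ≤ m * a := Nat.le_mul_of_pos_left a hm0
      exact this.trans (Nat.le_add_right _ _)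
    have hbase : Tendsto (fun a => dist (x (m * a + j)).1 pj) atTop (𝓝 0) := by
      have h1 := has.comp hsub
      refine h1.congr fun a => ?_
      show dist (x (m * a + j)).1 (g^[m * a + j] p) = _
      rw [Nat.add_comm, iterate_add_apply]
      have h2 : g^[m * a] p = p := by
        have := (isPeriodicPt_minimalPeriod g p).mul_const a
        exact this.eq
      rw [h2]
    -- the returns
    have hret : ∀ i : ℕ, Tendsto (fun k => dist (G^[i] (x k)) (x (k + i))) atTop (𝓝 0) := by
      intro i
      induction i with
      | zero => simp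
      | succ i ih =>
        have h1 := dist_comp hG ih
        have h2 := hx.comp (tendsto_add_atTop_nat i)
        have h3 := h1.add h2
        rw [add_zero] at h3
        refine squeeze_zero (fun n => dist_nonneg) (fun n => ?_) h3
        rw [iterate_succ_apply']
        exact dist_triangle _ _ _
    set R := ret G m pj with hR
    have hGm : Continuous (G^[m]) := hG.iterate m
    have hw : Tendsto (fun a => dist (R (x (m * a + j)).2) (x (m * (a + 1) + j)).2) atTop (𝓝 0) := by
      have h1 : Tendsto (fun a => dist ((pj, (x (m * a + j)).2) : B × K) (x (m * a + j))) atTop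
          (𝓝 0) := by
        refine hbase.congr fun a => ?_
        rw [Prod.dist_eq, dist_self, max_eq_left dist_nonneg, dist_comm]
      have h2 := dist_comp hGm h1
      have h3 := (hret m).comp hsub
      have h4 := h2.add h3
      rw [add_zero] at h4
      refine squeeze_zero (fun n => dist_nonneg) (fun a => ?_) h4
      have h5 : dist (G^[m] (pj, (x (m * a + j)).2)) (x (m * a + j + m)) ≤
          dist (G^[m] (pj, (x (m * a + j)).2)) (G^[m] (x (m * a + j))) +
            dist (G^[m] (x (m * a + j))) (x (m * a + j + m)) := dist_triangle _ _ _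
      have h6 : m * (a + 1) + j = m * a + j + m := by ring
      rw [h6]
      exact (le_max_right _ _).trans h5
    have hz2 : MapClusterPt z.2 atTop (fun a => (x (m * a + j)).2) :=
      hzj.continuousAt_comp continuous_snd.continuousAt
    have hz1 : z.1 = pj := by
      have h1 : MapClusterPt z.1 atTop (fun a => (x (m * a + j)).1) :=
        hzj.continuousAt_comp continuous_fst.continuousAt
      have h2 : Tendsto (fun a => (x (m * a + j)).1) atTop (𝓝 pj) :=
        tendsto_iff_dist_tendsto_zero.mpr hbase
      have h3 : ClusterPt z.1 (𝓝 pj) := ClusterPt.mono h1 h2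
      exact eq_of_nhds_neBot h3
    have h8 := (hK pj hpjp).2 (fun a => (x (m * a + j)).2) (asymPO_iff.mpr (by
      rw [hpjm]
      exact hw)) z.2 hz2
    rw [hpjm] at h8
    obtain ⟨n, hn, hy⟩ := h8
    refine ⟨m * n, Nat.mul_pos hm0 hn, ?_⟩
    show G^[m * n] z = z
    have h9 := ret_iter h hmpj n z.2
    have h10 : z = (pj, z.2) := by
      ext
      · exact hz1
      · rfl
    rw [h10, h9]
    have h11 : (ret G m pj)^[n] z.2 = z.2 := hy
    rw [h11]

end skew

section next

variable {B K : Type*} [TopologicalSpace B] [TopologicalSpace K] {g : B → B}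

/-- return maps along an orbit are conjugate -/
theorem gradLike_ret_next (G : (B × K) ≃ₜ (B × K)) (hgi : Injective g)
    (h : ∀ z, (G z).1 = g z.1) {p : B} {m : ℕ} (hp : g^[m] p = p)
    (hr : GradLike (ret G m p)) : GradLike (ret G m (g p)) := by
  have hsym : ∀ y, (G.symm (g p, y)).1 = p := by
    intro y
    apply hgi
    rw [← h, G.apply_symm_apply]
  let H : K ≃ₜ K :=
    { toFun := fun y => (G (p, y)).2
      invFun := fun y => (G.symm (g p, y)).2
      left_inv := fun y => by
        have h1 : (g p, (G (p, y)).2) = G (p, y) := by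
          ext
          · exact (h (p, y)).symm
          · rfl
        show (G.symm (g p, (G (p, y)).2)).2 = y
        rw [h1, G.symm_apply_apply]
      right_inv := fun y => by
        have h1 : (p, (G.symm (g p, y)).2) = G.symm (g p, y) := by
          ext
          · exact (hsym y).symm
          · rfl
        show (G (p, (G.symm (g p, y)).2)).2 = y
        rw [h1, G.apply_symm_apply]
      continuous_toFun := continuous_snd.comp (G.continuous.comp (Continuous.prodMk_right p))
      continuous_invFun := continuous_snd.comp
        (G.symm.continuous.comp (Continuous.prodMk_right (g p))) }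
  refine hr.conj H fun y => ?_
  show (G (p, (G^[m] (p, y)).2)).2 = (G^[m] (g p, (G (p, y)).2)).2
  have h1 : (p, (G^[m] (p, y)).2) = G^[m] (p, y) := by
    ext
    · rw [fst_iter h]; exact hp.symm
    · rfl
  have h2 : (g p, (G (p, y)).2) = G (p, y) := by
    ext
    · exact (h (p, y)).symm
    · rfl
  rw [h1, h2, ← iterate_succ_apply' G, ← iterate_succ_apply G]

theorem gradLike_ret_iter (G : (B × K) ≃ₜ (B × K)) (hgi : Injective g)
    (h : ∀ z, (G z).1 = g z.1) {p : B} {m : ℕ} (hp : g^[m] p = p)
    (hr : GradLike (ret G m p)) (i : ℕ) : GradLike (ret G m (g^[i] p)) := by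
  induction i with
  | zero => exact hr
  | succ i ih =>
    rw [iterate_succ_apply']
    refine gradLike_ret_next G hgi h ?_ ih
    rw [← iterate_add_apply, Nat.add_comm, iterate_add_apply, hp]

end next

end Pool.Agent.H66.GL
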