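import Pool.Agent.H66.GL.Def
import Pool.Agent.H66.L.S8.H718R2.G0
import Pool.Agent.H66.L.S8.H728R2.FA.Defs

/-!
# Skew products and limits of diffeomorphisms: definitions for the statements
-/

set_option autoImplicit false

open scoped Manifold ContDiff Topology
open MeasureTheory Function Set

universe u v w

namespace Pool.Agent.H66.GL.Stm

open Pool.Agent.H718R2.G Pool.Agent.H66.GL
open Pool.Agent.H728R2.FA (omegaLim FiniteAttractors)

/-- Diffeomorphisms from `B × K` to `N`. -/
abbrev Coord (n d l : ℕ) (N : Type u) [TopologicalSpace N] [ChartedSpace (V n) N]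
    (B : Type v) [TopologicalSpace B] [ChartedSpace (V d) B]
    (K : Type w) [TopologicalSpace K] [ChartedSpace (V l) K] :=
  Diffeomorph ((𝓡 d).prod (𝓡 l)) (𝓡 n) (B × K) N ∞

/-- Every `C^r` neighbourhood of `F` contains a diffeomorphism with the property `P`. -/
def LimitOf {n : ℕ} {N : Type u} [TopologicalSpace N] [ChartedSpace (V n) N] {r : ℕ∞}
    (P : (N → N) → Prop) (F : DiffM n N r) : Prop :=
  ∀ U : Set (DiffM n N r), IsOpen[strongTop n N r] U → F ∈ U → ∃ G ∈ U, P G

/-- `G` is gradient-like: it has finitely many periodic points, and all limit points of asymptotic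
pseudo-orbits of `G` are periodic; moreover every `ω`-limit set of `G` is a periodic orbit, and `G`
has finitely many attractors covering `N` up to a null set, for every measure on `N`. -/
def Good {N : Type u} [TopologicalSpace N] (G : N → N) : Prop :=
  GradLike G ∧ (∀ x, ∃ p ∈ periodicPts G, omegaLim G x = range fun k : ℕ => G^[k] p) ∧
    ∀ (_ : MeasurableSpace N) (μ : Measure N), FiniteAttractors μ G

end Pool.Agent.H66.GL.Stm
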