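import Pool.Agent.H66.GL.Stm
import Pool.Agent.H66.TM.Lin
import Pool.Agent.H66.TM.Alg

/-!
# Affine torus fibres: definitions for the statements
-/

set_option autoImplicit false

open scoped Manifold ContDiff Topology
open MeasureTheory Function Set

universe u v w

namespace Pool.Agent.H66.GL.Stm

open Pool.Agent.H718R2.G Pool.Agent.H66.GL Pool.Agent.H66.TM
open Pool.Agent.H728R2.FA (omegaLim FiniteAttractors)

/-- `G` has finitely many closed, invariant, transitive sets such that every `ω`-limit set of `G` is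
contained in one of them; moreover `G` has finitely many attractors covering `N` up to a null set,
for every measure on `N`. -/
def Tamed {N : Type u} [TopologicalSpace N] (G : N → N) : Prop :=
  (∃ (m : ℕ) (M : Fin m → Set N), (∀ i, IsClosed (M i) ∧ G '' M i = M i ∧
      ∃ x ∈ M i, M i ⊆ closure (range fun n : ℕ => G^[n] x)) ∧
    ∀ p, ∃ i, omegaLim G p ⊆ M i) ∧
  ∀ (_ : MeasurableSpace N) (μ : Measure N), FiniteAttractors μ G

/-- In the coordinates `Θ : B × 𝕋^k → N` the map `F` is the skew product
`(b, y) ↦ (f b, A y + c b)`. -/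
def AffineExtension {n d k : ℕ} {N : Type u} [TopologicalSpace N] [ChartedSpace (V n) N]
    {B : Type v} [TopologicalSpace B] [ChartedSpace (V d) B]
    (Θ : Coord n d k N B (Tor k)) (A : Matrix (Fin k) (Fin k) ℤ) (F : N → N) (f : B → B) : Prop :=
  ∃ c : B → Tor k, ∀ b y, F (Θ (b, y)) = Θ (f b, lin A y + c b)

/-- In the coordinates `θ : 𝕋^k → N` the map `F` is the affine map `y ↦ A y + c`. -/
def IsAffine {n k : ℕ} {N : Type u} [TopologicalSpace N] [ChartedSpace (V n) N]
    (θ : Diffeomorph (𝓡 k) (𝓡 n) (Tor k) N ∞) (A : Matrix (Fin k) (Fin k) ℤ) (F : N → N) : Prop :=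
  ∃ c : Tor k, ∀ y, F (θ y) = θ (lin A y + c)

/-- The conclusion: every neighbourhood of `F` in `Diff^r(N)` contains tame diffeomorphisms, and, if
all eigenvalues of `A` are roots of unity, even gradient-like ones. -/
def Limits {n k : ℕ} {N : Type u} [TopologicalSpace N] [ChartedSpace (V n) N] {r : ℕ∞}
    (A : Matrix (Fin k) (Fin k) ℤ) (F : DiffM n N r) : Prop :=
  LimitOf Tamed F ∧ (QuasiUnipotent A → LimitOf Good F)

end Pool.Agent.H66.GL.Stm
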