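import Pool.Agent.H66.GL.Def

/-!
# Gradient-like maps: finitely many periodic points attract all asymptotic pseudo-orbits
-/

set_option autoImplicit false
set_option linter.unusedSectionVars false

open Set Filter Topology Function Uniformity

namespace Pool.Agent.H66.GL

theorem asymPO_iff {X : Type*} [MetricSpace X] [CompactSpace X] {g : X → X} {x : ℕ → X} :
    AsymPO g x ↔ Tendsto (fun n => dist (g (x n)) (x (n + 1))) atTop (𝓝 0) := by
  unfold AsymPO
  rw [nhdsSet_diagonal_eq_uniformity, tendsto_uniformity_iff_dist_tendsto_zero]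

section metric

variable {X : Type*} [MetricSpace X] [CompactSpace X]

theorem dist_comp {Y : Type*} [MetricSpace Y] {G : X → Y} (hG : Continuous G) {u v : ℕ → X}
    (h : Tendsto (fun k => dist (u k) (v k)) atTop (𝓝 0)) :
    Tendsto (fun k => dist (G (u k)) (G (v k))) atTop (𝓝 0) := by
  have h1 := CompactSpace.uniformContinuous_of_continuous hG
  have h2 : Tendsto (fun k => (u k, v k)) atTop (𝓤 X) :=
    tendsto_uniformity_iff_dist_tendsto_zero.mpr h
  have h3 : Tendsto (fun k => (G (u k), G (v k))) atTop (𝓤 Y) := Tendsto.comp h1 h2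
  exact tendsto_uniformity_iff_dist_tendsto_zero.mp h3

theorem cluster_iff {x : ℕ → X} {z : X} :
    MapClusterPt z atTop x ↔ ∀ ε > 0, ∃ᶠ n in atTop, dist (x n) z < ε := by
  rw [mapClusterPt_iff_frequently]
  constructor
  · intro h ε hε
    exact h _ (Metric.ball_mem_nhds z hε)
  · intro h s hs
    obtain ⟨ε, hε, hs⟩ := Metric.mem_nhds_iff.mp hs
    exact (h ε hε).mono fun n hn => hs hn

/-- limit points are mapped to limit points -/
theorem cluster_map {g : X → X} (hg : Continuous g) {x : ℕ → X}
    (hx : Tendsto (fun n => dist (g (x n)) (x (n + 1))) atTop (𝓝 0)) {z : X}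
    (hz : MapClusterPt z atTop x) : MapClusterPt (g z) atTop x := by
  rw [cluster_iff] at hz ⊢
  intro ε hε
  obtain ⟨δ, hδ, h1⟩ := Metric.continuousAt_iff.mp (hg.continuousAt (x := z)) (ε / 2) (by positivity)
  have h2 : ∀ᶠ n in atTop, dist (g (x n)) (x (n + 1)) < ε / 2 := hx.eventually_lt_const (by positivity)
  have h3 : ∃ᶠ n in atTop, dist (x (n + 1)) (g z) < ε := by
    refine ((hz δ hδ).and_eventually h2).mono fun n hn => ?_
    have h4 := h1 hn.1
    calc dist (x (n + 1)) (g z) ≤ dist (x (n + 1)) (g (x n)) + dist (g (x n)) (g z) :=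
          dist_triangle _ _ _
      _ < ε / 2 + ε / 2 := by
          rw [dist_comm (x (n + 1))]
          exact add_lt_add hn.2 h4
      _ = ε := by ring
  exact (tendsto_add_atTop_nat 1).frequently h3

theorem per_of_finite {Y : Type*} {g : Y → Y} (hg : Injective g) {C : Set Y} (hC : C.Finite)
    (hm : ∀ z ∈ C, g z ∈ C) {z : Y} (hz : z ∈ C) : z ∈ periodicPts g := by
  have h1 : ∀ i : ℕ, g^[i] z ∈ C := by
    intro i
    induction i with
    | zero => exact hz
    | succ i ih => rw [iterate_succ_apply']; exact hm _ ih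
  obtain ⟨i, -, j, -, hij, h2⟩ := Set.infinite_univ.exists_ne_map_eq_of_mapsTo
    (f := fun i : ℕ => g^[i] z) (fun i _ => h1 i) hC
  wlog hlt : i < j generalizing i j
  · exact this j i (Ne.symm hij) h2.symm (lt_of_le_of_ne (not_lt.mp hlt) (Ne.symm hij))
  refine ⟨j - i, by omega, ?_⟩
  show g^[j - i] z = z
  apply hg.iterate i
  rw [← iterate_add_apply, Nat.add_sub_cancel' hlt.le]
  exact h2.symm

/-- **Strict Lyapunov functions.** -/
theorem gradLike_of_lyap {g : X → X} (hg : Continuous g) (hgi : Injective g) {q : X → ℝ}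
    (hq : Continuous q) (hm : ∀ x, q x ≤ q (g x)) (hE : {x | q (g x) = q x}.Finite) :
    GradLike g := by
  constructor
  · refine hE.subset ?_
    rintro p ⟨n, hn, hp⟩
    have h1 : ∀ i : ℕ, ∀ x, q x ≤ q (g^[i] x) := by
      intro i
      induction i with
      | zero => exact fun x => le_rfl
      | succ i ih => intro x; rw [iterate_succ_apply]; exact (hm x).trans (ih _)
    have h2 := h1 (n - 1) (g p)
    rw [← iterate_succ_apply, Nat.succ_eq_add_one, Nat.sub_add_cancel hn, hp.eq] at h2
    exact le_antisymm h2 (hm p)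
  · intro x hx z hz
    rw [asymPO_iff] at hx
    have hL : ∃ L, Tendsto (fun n => q (x n)) atTop (𝓝 L) := by
      have hb1 : IsBoundedUnder (· ≤ ·) atTop fun n => q (x n) := by
        obtain ⟨D, hD⟩ := (isCompact_range hq).bddAbove
        exact ⟨D, eventually_map.mpr (Eventually.of_forall fun n => hD (mem_range_self _))⟩
      have hb2 : IsBoundedUnder (· ≥ ·) atTop fun n => q (x n) := by
        obtain ⟨D, hD⟩ := (isCompact_range hq).bddBelow
        exact ⟨D, eventually_map.mpr (Eventually.of_forall fun n => hD (mem_range_self _))⟩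
      refine tendsto_of_no_upcrossings dense_univ (fun a _ b _ hab hcon => ?_) hb1 hb2
      obtain ⟨ha, hb⟩ := hcon
      -- a level which is not critical
      have hEf : (q '' {x | q (g x) = q x}).Finite := hE.image q
      obtain ⟨c, hc, hcE⟩ : ∃ c ∈ Ioo a b, c ∉ q '' {x | q (g x) = q x} := by
        by_contra hcon
        push Not at hcon
        exact (Ioo_infinite hab) (hEf.subset hcon)
      obtain ⟨δ, hδ, hδE, hδb⟩ : ∃ δ > 0, (∀ t, |t - c| ≤ δ → t ∉ q '' {x | q (g x) = q x}) ∧
          c + δ < b := by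
        obtain ⟨r, hr, hrE⟩ := Metric.isOpen_iff.mp hEf.isClosed.isOpen_compl c hcE
        refine ⟨min (r / 2) ((b - c) / 2), lt_min (by positivity) (by linarith [hc.2]),
          fun t ht => hrE ?_, ?_⟩
        · rw [Metric.mem_ball, Real.dist_eq]
          exact lt_of_le_of_lt (ht.trans (min_le_left _ _)) (by linarith)
        · have := min_le_right (r / 2) ((b - c) / 2)
          linarith [hc.2]
      -- uniform growth
      have hA : IsCompact {y | |q y - c| ≤ δ} :=
        (isClosed_le ((hq.sub continuous_const).abs) continuous_const).isCompact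
      obtain ⟨η, hη, hηg⟩ : ∃ η > 0, ∀ y, |q y - c| ≤ δ → q y + η ≤ q (g y) := by
        rcases ({y | |q y - c| ≤ δ} : Set X).eq_empty_or_nonempty with h0 | h0
        · refine ⟨1, one_pos, fun y hy => ?_⟩
          have : y ∈ ({y | |q y - c| ≤ δ} : Set X) := hy
          rw [h0] at this
          exact this.elim
        · obtain ⟨y₀, hy₀, hmin⟩ := hA.exists_isMinOn h0
            ((hq.comp hg).sub hq).continuousOn
          refine ⟨q (g y₀) - q y₀, ?_, fun y hy => ?_⟩
          · have h1 := hm y₀
            have h2 : q (g y₀) ≠ q y₀ := fun h => hδE (q y₀) hy₀ ⟨y₀, h, rfl⟩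
            have := lt_of_le_of_ne h1 (Ne.symm h2)
            linarith
          · have h3 : q (g y₀) - q y₀ ≤ q (g y) - q y := hmin hy
            linarith
      have herr : ∀ᶠ n in atTop, dist (q (g (x n))) (q (x (n + 1))) < min η δ :=
        (dist_comp hq hx).eventually_lt_const (lt_min hη hδ)
      obtain ⟨N, hN⟩ := eventually_atTop.mp herr
      have hstep : ∀ n ≥ N, c ≤ q (x n) → c ≤ q (x (n + 1)) := by
        intro n hn hcn
        have h1 := hN n hn
        rw [Real.dist_eq, abs_lt] at h1
        have h2 := min_le_left η δ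
        have h3 := min_le_right η δ
        rcases le_or_gt (q (x n)) (c + δ) with h4 | h4
        · have h5 := hηg (x n) (by rw [abs_le]; constructor <;> linarith)
          linarith [h1.2]
        · have h5 := hm (x n)
          linarith [h1.2]
      obtain ⟨n, hn, hnb⟩ := (frequently_atTop.mp hb) N
      have hall : ∀ k, c ≤ q (x (n + k)) := by
        intro k
        induction k with
        | zero =>
          have : c < b := hc.2
          have h5 : b < q (x n) := hnb
          show c ≤ q (x n)
          linarith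
        | succ k ih => exact hstep (n + k) (by omega) ih
      obtain ⟨n', hn', hna⟩ := (frequently_atTop.mp ha) n
      have h6 := hall (n' - n)
      rw [Nat.add_sub_cancel' hn'] at h6
      have h7 : q (x n') < a := hna
      linarith [hc.1]
    obtain ⟨L, hL⟩ := hL
    have hval : ∀ y, MapClusterPt y atTop x → q y = L := by
      intro y hy
      have h1 : ClusterPt (q y) (map q (map x atTop)) := by
        have h2 : ClusterPt y (map x atTop) := hy
        exact h2.map hq.continuousAt tendsto_map
      have h3 : ClusterPt (q y) (𝓝 L) := h1.mono hL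
      exact eq_of_nhds_neBot h3
    refine per_of_finite hgi (C := {y | MapClusterPt y atTop x}) (hE.subset ?_)
      (fun y hy => cluster_map hg hx hy) hz
    intro y hy
    show q (g y) = q y
    rw [hval y hy, hval _ (cluster_map hg hx hy)]

/-- asymptotic pseudo-orbits of gradient-like maps are asymptotic to periodic orbits -/
theorem GradLike.asymp {g : X → X} (hg : Continuous g) (h : GradLike g) {x : ℕ → X}
    (hx : Tendsto (fun n => dist (g (x n)) (x (n + 1))) atTop (𝓝 0)) :
    ∃ p ∈ periodicPts g, Tendsto (fun n => dist (x n) (g^[n] p)) atTop (𝓝 0) := by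
  classical
  have hfin := h.1
  -- the distance to the periodic points tends to zero
  have hnear : ∀ ε > 0, ∀ᶠ n in atTop, ∃ p ∈ periodicPts g, dist (x n) p < ε := by
    intro ε hε
    by_contra hcon
    rw [not_eventually] at hcon
    have hK : IsCompact ({y | ∀ p ∈ periodicPts g, ε ≤ dist y p} : Set X) := by
      refine IsClosed.isCompact ?_
      have : ({y | ∀ p ∈ periodicPts g, ε ≤ dist y p} : Set X) =
          ⋂ p ∈ periodicPts g, {y | ε ≤ dist y p} := by
        ext y; simp
      rw [this]
      exact isClosed_biInter fun p _ =>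
        isClosed_le continuous_const (continuous_id.dist continuous_const)
    have hfr : ∃ᶠ n in atTop, x n ∈ ({y | ∀ p ∈ periodicPts g, ε ≤ dist y p} : Set X) := by
      refine hcon.mono fun n hn => ?_
      push Not at hn
      exact hn
    obtain ⟨y, hy, hyc⟩ := hK.exists_mapClusterPt_of_frequently hfr
    have h1 := h.2 x (asymPO_iff.mpr hx) y hyc
    have h2 := hy y h1
    rw [dist_self] at h2
    linarith
  -- separation of periodic points
  obtain ⟨δ, hδ, hsep⟩ : ∃ δ > 0, ∀ p ∈ periodicPts g, ∀ p' ∈ periodicPts g, dist p p' < δ → p = p' := by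
    have h1 : ((periodicPts g ×ˢ periodicPts g) ∩ {w : X × X | w.1 ≠ w.2}).Finite :=
      (hfin.prod hfin).inter_of_left _
    have h2 : ∀ w ∈ ((periodicPts g ×ˢ periodicPts g) ∩ {w : X × X | w.1 ≠ w.2}),
        0 < dist w.1 w.2 := fun w hw => dist_pos.mpr hw.2
    rcases ((periodicPts g ×ˢ periodicPts g) ∩ {w : X × X | w.1 ≠ w.2}).eq_empty_or_nonempty with h0 | h0
    · refine ⟨1, one_pos, fun p hp p' hp' _ => ?_⟩
      by_contra hne
      have : ((p, p') : X × X) ∈ ((periodicPts g ×ˢ periodicPts g) ∩ {w : X × X | w.1 ≠ w.2}) :=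
        ⟨⟨hp, hp'⟩, hne⟩
      rw [h0] at this
      exact this
    · obtain ⟨w, hw, hmin⟩ := h1.exists_minimalFor (fun w : X × X => dist w.1 w.2) _ h0
      refine ⟨dist w.1 w.2, h2 w hw, fun p hp p' hp' hd => ?_⟩
      by_contra hne
      have h3 : ((p, p') : X × X) ∈ ((periodicPts g ×ˢ periodicPts g) ∩ {w : X × X | w.1 ≠ w.2}) :=
        ⟨⟨hp, hp'⟩, hne⟩
      have h4 : dist w.1 w.2 ≤ dist p p' := by
        rcases le_total (dist w.1 w.2) (dist p p') with h5 | h5
        · exact h5
        · exact hmin h3 h5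
      linarith
  -- choice of scales
  obtain ⟨ε, hε, hεδ, hεg⟩ : ∃ ε > 0, ε ≤ δ / 4 ∧ ∀ u v : X, dist u v < ε → dist (g u) (g v) < δ / 4 := by
    have h1 := CompactSpace.uniformContinuous_of_continuous hg
    rw [Metric.uniformContinuous_iff] at h1
    obtain ⟨ε, hε, h2⟩ := h1 (δ / 4) (by positivity)
    exact ⟨min ε (δ / 4), lt_min hε (by positivity), min_le_right _ _,
      fun u v huv => h2 (lt_of_lt_of_le huv (min_le_left _ _))⟩
  have hev := (hnear ε hε).and (hx.eventually_lt_const (show (0:ℝ) < δ / 4 by positivity))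
  obtain ⟨N, hN⟩ := eventually_atTop.mp hev
  have hch : ∀ n, ∃ p, n ≥ N → p ∈ periodicPts g ∧ dist (x n) p < ε := by
    intro n
    by_cases hn : n ≥ N
    · obtain ⟨p, hp, h1⟩ := (hN n hn).1
      exact ⟨p, fun _ => ⟨hp, h1⟩⟩
    · exact ⟨x 0, fun h => (hn h).elim⟩
  choose π hπ using hch
  have hgper : ∀ p ∈ periodicPts g, g p ∈ periodicPts g := by
    rintro p ⟨n, hn, hp⟩
    exact ⟨n, hn, hp.apply⟩
  have hstep : ∀ n ≥ N, π (n + 1) = g (π n) := by
    intro n hn
    obtain ⟨h1, h2⟩ := hπ n hn
    obtain ⟨h3, h4⟩ := hπ (n + 1) (by omega)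
    refine hsep _ h3 _ (hgper _ h1) ?_
    have h5 := (hN n hn).2
    have h6 := hεg _ _ h2
    calc dist (π (n + 1)) (g (π n)) ≤ dist (π (n + 1)) (x (n + 1)) + dist (x (n + 1)) (g (x n)) +
          dist (g (x n)) (g (π n)) := dist_triangle4 _ _ _ _
      _ < δ / 4 + δ / 4 + δ / 4 := by
          rw [dist_comm (π (n + 1)), dist_comm (x (n + 1)) (g (x n))]
          linarith
      _ < δ := by linarith
  obtain ⟨hp0, -⟩ := hπ N le_rfl
  obtain ⟨m, hm, hpm⟩ := hp0
  refine ⟨g^[N * m - N] (π N), ⟨m, hm, hpm.apply_iterate _⟩, ?_⟩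
  have hlen : N ≤ N * m := Nat.le_mul_of_pos_right N hm
  have hiter : ∀ k, π (N + k) = g^[N + k] (g^[N * m - N] (π N)) := by
    intro k
    rw [← iterate_add_apply, show N + k + (N * m - N) = k + N * m by omega, iterate_add_apply]
    have h1 : g^[N * m] (π N) = π N := by
      rw [mul_comm]
      exact (hpm.mul_const N).eq
    rw [h1]
    induction k with
    | zero => rfl
    | succ k ih =>
      rw [iterate_succ_apply', ← ih, ← hstep (N + k) (by omega)]
      rfl
  rw [Metric.tendsto_atTop]
  intro ε' hε'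
  obtain ⟨N', hN'⟩ := eventually_atTop.mp (hnear (min ε' ε) (lt_min hε' hε))
  refine ⟨max N N', fun n hn => ?_⟩
  have h1 : n ≥ N := le_trans (le_max_left _ _) hn
  obtain ⟨p, hp, hd⟩ := hN' n (le_trans (le_max_right _ _) hn)
  obtain ⟨h2, h3⟩ := hπ n h1
  have h4 : p = π n := by
    refine hsep _ hp _ h2 ?_
    calc dist p (π n) ≤ dist p (x n) + dist (x n) (π n) := dist_triangle _ _ _
      _ < δ := by
          rw [dist_comm p]
          have := min_le_right ε' ε
          linarith
  rw [Real.dist_0_eq_abs, abs_of_nonneg dist_nonneg]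
  have h5 := hiter (n - N)
  rw [Nat.add_sub_cancel' h1] at h5
  rw [← h5, ← h4]
  exact lt_of_lt_of_le hd (min_le_left _ _)

end metric

end Pool.Agent.H66.GL
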