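import Pool.Agent.H66.GL.Skew
import Pool.Agent.H66.L.T9f66d723.W5h32.TX.Inh
import Pool.Agent.H66.L.S8.TH80.CLX.Fam

/-!
# Vertical perturbations of skew products
-/

set_option autoImplicit false
set_option linter.unusedSectionVars false

open scoped Manifold ContDiff Topology
open Set Filter Topology Function

universe u v w

namespace Pool.Agent.H66.GL

open Pool.Agent.H718R2.G Pool.Agent.W564.SC Pool.Agent.W5h32.TX
open Pool.Agent.R773.TE (ProdDiff proj lf lf_apply exists_open)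

/-- smooth actions of `ℝ^j` on `K` -/
structure SAct (l j : ℕ) {K : Type w} [TopologicalSpace K] [ChartedSpace (V l) K]
    (a : (Fin j → ℝ) → K → K) : Prop where
  smooth : ContMDiff (𝓘(ℝ, Fin j → ℝ).prod (𝓡 l)) (𝓡 l) ∞
    (fun p : (Fin j → ℝ) × K => a p.1 p.2)
  zero : ∀ x, a 0 x = x
  add : ∀ s t x, a (s + t) x = a s (a t x)

variable {n d l : ℕ} {N : Type u} [TopologicalSpace N] [T2Space N] [CompactSpace N]
  [ChartedSpace (V n) N] [IsManifold (𝓡 n) ∞ N]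
  {B : Type v} [TopologicalSpace B] [T2Space B] [CompactSpace B] [ChartedSpace (V d) B]
  [IsManifold (𝓡 d) ∞ B]
  {K : Type w} [TopologicalSpace K] [ChartedSpace (V l) K] [IsManifold (𝓡 l) ∞ K] {r : ℕ∞}
  {j : ℕ} {a : (Fin j → ℝ) → K → K}

/-- the vertical map `(b, y) ↦ (b, a (χ b • s) y)` -/
noncomputable def vert (Θ : ProdDiff n d l N B K) (a : (Fin j → ℝ) → K → K) (χ : B → ℝ)
    (s : Fin j → ℝ) (x : N) : N := Θ (proj Θ x, a (χ (proj Θ x) • s) (fib Θ x))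

theorem vert_apply (Θ : ProdDiff n d l N B K) (χ : B → ℝ) (s : Fin j → ℝ) (b : B) (y : K) :
    vert Θ a χ s (Θ (b, y)) = Θ (b, a (χ b • s) y) := by
  unfold vert fib proj
  rw [Θ.symm_apply_apply]

theorem proj_vert (Θ : ProdDiff n d l N B K) (χ : B → ℝ) (s : Fin j → ℝ) (x : N) :
    proj Θ (vert Θ a χ s x) = proj Θ x := by
  unfold vert
  exact proj_apply _ _

theorem vert_smooth (Θ : ProdDiff n d l N B K) (ha : SAct l j a) {χ : B → ℝ}
    (hχ : ContMDiff (𝓡 d) 𝓘(ℝ, ℝ) ∞ χ) :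
    ContMDiff (𝓘(ℝ, Fin j → ℝ).prod (𝓡 n)) (𝓡 n) ∞
      (fun q : (Fin j → ℝ) × N => vert Θ a χ q.1 q.2) := by
  have h1 : ContMDiff (𝓘(ℝ, Fin j → ℝ).prod (𝓡 n)) ((𝓡 d).prod (𝓡 l)) ∞
      (fun p : (Fin j → ℝ) × N => Θ.symm p.2) := Θ.symm.contMDiff.comp contMDiff_snd
  have h2 : ContMDiff (𝓘(ℝ, Fin j → ℝ).prod (𝓡 n)) (𝓡 d) ∞
      (fun p : (Fin j → ℝ) × N => proj Θ p.2) := contMDiff_fst.comp h1
  have h3 : ContMDiff (𝓘(ℝ, Fin j → ℝ).prod (𝓡 n)) (𝓡 l) ∞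
      (fun p : (Fin j → ℝ) × N => fib Θ p.2) := contMDiff_snd.comp h1
  have h4 : ContMDiff (𝓘(ℝ, Fin j → ℝ).prod (𝓡 n)) 𝓘(ℝ, Fin j → ℝ) ∞
      (fun p : (Fin j → ℝ) × N => χ (proj Θ p.2) • p.1) := (hχ.comp h2).smul contMDiff_fst
  have h5 : ContMDiff (𝓘(ℝ, Fin j → ℝ).prod (𝓡 n)) (𝓡 l) ∞
      (fun p : (Fin j → ℝ) × N => a (χ (proj Θ p.2) • p.1) (fib Θ p.2)) :=
    ha.smooth.comp (h4.prodMk h3)
  exact Θ.contMDiff.comp (h2.prodMk h5)

theorem vert_inv (Θ : ProdDiff n d l N B K) (ha : SAct l j a) (χ : B → ℝ) (s : Fin j → ℝ) (x : N) :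
    vert Θ a χ (-s) (vert Θ a χ s x) = x := by
  rw [eq_Θ (Θ := Θ) x, vert_apply, vert_apply, ← ha.add, smul_neg, neg_add_cancel, ha.zero]

theorem vert_zero (Θ : ProdDiff n d l N B K) (ha : SAct l j a) (χ : B → ℝ) (x : N) :
    vert Θ a χ 0 x = x := by
  rw [eq_Θ (Θ := Θ) x, vert_apply, smul_zero, ha.zero]

/-- the vertical diffeomorphism -/
noncomputable def vertD (Θ : ProdDiff n d l N B K) (ha : SAct l j a) {χ : B → ℝ}
    (hχ : ContMDiff (𝓡 d) 𝓘(ℝ, ℝ) ∞ χ) (r : ℕ∞) (s : Fin j → ℝ) : DiffM n N r where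
  toFun := vert Θ a χ s
  invFun := vert Θ a χ (-s)
  left_inv x := vert_inv Θ ha χ s x
  right_inv x := by
    have := vert_inv Θ ha χ (-s) x
    rwa [neg_neg] at this
  contMDiff_toFun := ((vert_smooth Θ ha hχ).comp
    (contMDiff_const.prodMk contMDiff_id)).of_le (by exact_mod_cast le_top)
  contMDiff_invFun := ((vert_smooth Θ ha hχ).comp
    (contMDiff_const.prodMk contMDiff_id)).of_le (by exact_mod_cast le_top)

/-- small vertical perturbations -/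
theorem vert_mem (Θ : ProdDiff n d l N B K) (ha : SAct l j a) {χ : B → ℝ}
    (hχ : ContMDiff (𝓡 d) 𝓘(ℝ, ℝ) ∞ χ) (hr : 1 ≤ r) (F : DiffM n N r)
    (U : Set (DiffM n N r)) (hU : IsOpen[strongTop n N r] U) (hFU : F ∈ U) :
    ∃ κ : ℝ, 0 < κ ∧ ∀ s : Fin j → ℝ, ‖s‖ < κ → F.trans (vertD Θ ha hχ r s) ∈ U := by
  have h0 : F.trans (vertD Θ ha hχ r 0) = F := by
    apply Diffeomorph.ext
    intro y
    exact vert_zero Θ ha χ (F y)
  rcases isEmpty_or_nonempty N with hN | ⟨⟨z⟩⟩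
  · refine ⟨1, one_pos, fun s _ => ?_⟩
    have : F.trans (vertD Θ ha hχ r s) = F := by
      apply Diffeomorph.ext
      intro y
      exact (hN.false y).elim
    rwa [this]
  · have hfam : IsFam n N r (fun s => F.trans (vertD Θ ha hχ r s)) := by
      intro y
      have hr' : (r : WithTop ℕ∞) ≤ ∞ := by exact_mod_cast le_top
      have h1 : ContMDiff (𝓘(ℝ, Fin j → ℝ).prod (𝓡 n)) (𝓘(ℝ, Fin j → ℝ).prod (𝓡 n)) r
          (fun q : (Fin j → ℝ) × N => (q.1, F q.2)) :=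
        contMDiff_fst.prodMk (F.contMDiff.comp contMDiff_snd)
      exact (((vert_smooth Θ ha hχ).of_le hr').comp h1).contMDiffAt
    exact Pool.Agent.TH80.CLX.fam_mem r hr _ hfam z U hU (by rwa [h0])

/-- `G` in coordinates -/
noncomputable def co (Θ : ProdDiff n d l N B K) (G : DiffM n N r) : (B × K) ≃ₜ (B × K) :=
  Θ.toHomeomorph.trans (G.toHomeomorph.trans Θ.toHomeomorph.symm)

theorem co_apply (Θ : ProdDiff n d l N B K) (G : DiffM n N r) (z : B × K) :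
    co Θ G z = Θ.symm (G (Θ z)) := rfl

theorem co_fst {Θ : ProdDiff n d l N B K} {G : DiffM n N r} {g : B → B}
    (h : ∀ x, proj Θ (G x) = g (proj Θ x)) (z : B × K) : (co Θ G z).1 = g z.1 := by
  have h1 := h (Θ z)
  have h2 : proj Θ (Θ z) = z.1 := proj_apply z.1 z.2
  rw [h2] at h1
  exact h1

theorem proj_trans_vert {Θ : ProdDiff n d l N B K} {ha : SAct l j a} {χ : B → ℝ}
    {hχ : ContMDiff (𝓡 d) 𝓘(ℝ, ℝ) ∞ χ} {F : DiffM n N r} {g : B → B}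
    (h : ∀ x, proj Θ (F x) = g (proj Θ x)) (s : Fin j → ℝ) (x : N) :
    proj Θ (F.trans (vertD Θ ha hχ r s) x) = g (proj Θ x) := by
  show proj Θ (vert Θ a χ s (F x)) = _
  rw [proj_vert, h]

theorem co_vert (Θ : ProdDiff n d l N B K) (ha : SAct l j a) {χ : B → ℝ}
    (hχ : ContMDiff (𝓡 d) 𝓘(ℝ, ℝ) ∞ χ) (F : DiffM n N r) (s : Fin j → ℝ) (z : B × K) :
    co Θ (F.trans (vertD Θ ha hχ r s)) z =
      ((co Θ F z).1, a (χ (co Θ F z).1 • s) (co Θ F z).2) := by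
  rw [co_apply]
  show Θ.symm (vert Θ a χ s (F (Θ z))) = _
  rw [eq_Θ (Θ := Θ) (F (Θ z)), vert_apply, Θ.symm_apply_apply]
  rfl

end Pool.Agent.H66.GL
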